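import Pool.Agent.K1.EBern

/-!
# The kernel bound (order `k = 1`): the one-variable inequality (E)

`Cs s` is the constant of the zone; `E_ineq` is the inequality between the two averages.
Overview: doc `deep/MP_832e94_k1_final`.
-/

set_option autoImplicit false

namespace Pool.Agent.K1

open MeasureTheory intervalIntegral Set

/-- The constant `C(s)` of the kernel bound. -/
noncomputable def Cs (s : ℝ) : ℝ :=
  if s < 2 / 5 then 3 * s * (1 + s) / (1 + 3 * s)
  else if s ≤ 1 then 1 / 3 + s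
  else if s ≤ 8 / 5 then 7 / 3 - s
  else 1

theorem Cs_of_lt {s : ℝ} (h : s < 2 / 5) : Cs s = 3 * s * (1 + s) / (1 + 3 * s) := by
  unfold Cs; rw [if_pos h]

theorem Cs_of_le_one {s : ℝ} (h : 2 / 5 ≤ s) (h1 : s ≤ 1) : Cs s = 1 / 3 + s := by
  unfold Cs; rw [if_neg (by linarith), if_pos h1]

theorem Cs_of_le {s : ℝ} (h : 1 < s) (h1 : s ≤ 8 / 5) : Cs s = 7 / 3 - s := by
  unfold Cs; rw [if_neg (by linarith), if_neg (by linarith), if_pos h1]

theorem Cs_of_gt {s : ℝ} (h : 8 / 5 < s) : Cs s = 1 := by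
  unfold Cs; rw [if_neg (by linarith), if_neg (by linarith), if_neg (by linarith)]

theorem Cs_pos {s : ℝ} (h : 0 < s) : 0 < Cs s := by
  rcases lt_or_ge s (2 / 5) with h1 | h1
  · rw [Cs_of_lt h1]; positivity
  rcases le_or_gt s 1 with h2 | h2
  · rw [Cs_of_le_one h1 h2]; positivity
  rcases le_or_gt s (8 / 5) with h3 | h3
  · rw [Cs_of_le h2 h3]; linarith
  · rw [Cs_of_gt h3]; norm_num

/-! ### The logarithm -/

theorem log_lower {r : ℝ} (hr : 0 ≤ r) :
    r * (60 + 60 * r + 11 * r ^ 2) / (3 * (20 + 30 * r + 12 * r ^ 2 + r ^ 3)) ≤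
      Real.log (1 + r) := by
  set f : ℝ → ℝ := fun r => Real.log (1 + r) -
    r * (60 + 60 * r + 11 * r ^ 2) / (3 * (20 + 30 * r + 12 * r ^ 2 + r ^ 3)) with hf
  have hder : ∀ x : ℝ, 0 ≤ x → HasDerivAt f
      (1 / (1 + x) - ((60 + 120 * x + 33 * x ^ 2) * (3 * (20 + 30 * x + 12 * x ^ 2 + x ^ 3)) -
        x * (60 + 60 * x + 11 * x ^ 2) * (3 * (30 + 24 * x + 3 * x ^ 2))) /
        (3 * (20 + 30 * x + 12 * x ^ 2 + x ^ 3)) ^ 2) x := by
    intro x hx
    have h0 := hasDerivAt_id' x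
    have h1 : HasDerivAt (fun r : ℝ => Real.log (1 + r)) (1 / (1 + x)) x := by
      have := (h0.const_add 1).log (by positivity)
      exact this
    have hp2 : HasDerivAt (fun r : ℝ => r ^ 2) (2 * x) x := by
      have := hasDerivAt_pow 2 x; simpa using this
    have hp3 : HasDerivAt (fun r : ℝ => r ^ 3) (3 * x ^ 2) x := by
      have := hasDerivAt_pow 3 x; simpa using this
    have hN : HasDerivAt (fun r : ℝ => r * (60 + 60 * r + 11 * r ^ 2))
        (60 + 120 * x + 33 * x ^ 2) x := by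
      have := h0.mul (((h0.const_mul 60).const_add 60).add (hp2.const_mul 11))
      refine (this.congr_deriv ?_)
      simp only [Pi.add_apply]
      ring
    have hD : HasDerivAt (fun r : ℝ => 3 * (20 + 30 * r + 12 * r ^ 2 + r ^ 3))
        (3 * (30 + 24 * x + 3 * x ^ 2)) x := by
      have := ((((h0.const_mul 30).const_add 20).add (hp2.const_mul 12)).add hp3).const_mul 3
      refine (this.congr_deriv ?_)
      ring
    have hDn : 3 * (20 + 30 * x + 12 * x ^ 2 + x ^ 3) ≠ 0 := by positivity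
    exact h1.sub (hN.div hD hDn)
  have hmono : MonotoneOn f (Ici 0) := by
    apply monotoneOn_of_deriv_nonneg (convex_Ici 0)
    · intro x hx
      exact (hder x hx).continuousAt.continuousWithinAt
    · intro x hx
      rw [interior_Ici] at hx
      exact (hder x (le_of_lt hx)).differentiableAt.differentiableWithinAt
    · intro x hx
      rw [interior_Ici] at hx
      have hx0 : 0 < x := hx
      rw [(hder x hx0.le).deriv]
      have hD : 0 < 3 * (20 + 30 * x + 12 * x ^ 2 + x ^ 3) := by positivity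
      rw [sub_nonneg, div_le_div_iff₀ (by positivity) (by positivity)]
      have : 0 ≤ x ^ 6 := by positivity
      nlinarith
  have h1 := hmono (mem_Ici.2 le_rfl) (mem_Ici.2 hr) hr
  simp only [hf, zero_mul, zero_div, add_zero, Real.log_one, sub_zero] at h1
  linarith

/-! ### The two averages -/

theorem avg_l_ge {s w : ℝ} (hs : 0 < s) (hw : 0 < w) :
    4 * NN w s / (3 * DD w s) - 1 ≤ ∫ v in (0:ℝ)..1, 2 * (1 - v) * (2 / (s + v * w) - 1) := by
  have hint : ∫ v in (0:ℝ)..1, 2 * (1 - v) * (2 / (s + v * w) - 1) =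
      (4 * (s + w) / w ^ 2 * Real.log (s + 1 * w) - 4 * 1 / w - (2 * 1 - 1 ^ 2)) -
      (4 * (s + w) / w ^ 2 * Real.log (s + 0 * w) - 4 * 0 / w - (2 * 0 - 0 ^ 2)) := by
    apply intervalIntegral.integral_eq_sub_of_hasDerivAt
      (f := fun v => 4 * (s + w) / w ^ 2 * Real.log (s + v * w) - 4 * v / w - (2 * v - v ^ 2))
    · intro v hv
      rw [uIcc_of_le (by norm_num)] at hv
      have hpos : 0 < s + v * w := by have := mul_nonneg hv.1 hw.le; linarith
      have h0 := hasDerivAt_id' v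
      have hp2 : HasDerivAt (fun r : ℝ => r ^ 2) (2 * v) v := by
        have := hasDerivAt_pow 2 v; simpa using this
      have h1 := (((h0.mul_const w).const_add s).log hpos.ne').const_mul (4 * (s + w) / w ^ 2)
      have h2 := (h0.const_mul 4).div_const w
      have h3 := (h0.const_mul 2).sub hp2
      refine ((h1.sub h2).sub h3).congr_deriv ?_
      have hne : s + v * w ≠ 0 := hpos.ne'
      obtain ⟨q, hq⟩ : ∃ q, q = s + v * w := ⟨_, rfl⟩
      have hs' : s = q - v * w := by rw [hq]; ring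
      rw [← hq] at hne ⊢
      rw [hs']
      field_simp
      ring
    · apply ContinuousOn.intervalIntegrable
      intro v hv
      rw [uIcc_of_le (by norm_num)] at hv
      have hpos : 0 < s + v * w := by have := mul_nonneg hv.1 hw.le; linarith
      apply ContinuousAt.continuousWithinAt
      have : s + v * w ≠ 0 := hpos.ne'
      fun_prop (disch := assumption)
  rw [hint]
  have hr : 0 ≤ w / s := by positivity
  have hlog := log_lower hr
  have e1 : Real.log (s + 1 * w) - Real.log (s + 0 * w) = Real.log (1 + w / s) := by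
    rw [zero_mul, add_zero, one_mul, ← Real.log_div (by positivity) hs.ne']
    congr 1
    field_simp
  have e2 : w / s * (60 + 60 * (w / s) + 11 * (w / s) ^ 2) /
      (3 * (20 + 30 * (w / s) + 12 * (w / s) ^ 2 + (w / s) ^ 3)) =
      w * (60 * s ^ 2 + 60 * s * w + 11 * w ^ 2) / (3 * DD w s) := by
    unfold DD
    have : 0 < 20 * s ^ 3 + 30 * w * s ^ 2 + 12 * w ^ 2 * s + w ^ 3 := by positivity
    have h2 : 0 < 20 + 30 * (w / s) + 12 * (w / s) ^ 2 + (w / s) ^ 3 := by positivity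
    rw [div_eq_div_iff (by positivity) (by positivity)]
    field_simp
  rw [e2] at hlog
  have hDD : 0 < DD w s := by unfold DD; positivity
  have h3 : 4 * (s + w) / w ^ 2 * (w * (60 * s ^ 2 + 60 * s * w + 11 * w ^ 2) / (3 * DD w s)) ≤
      4 * (s + w) / w ^ 2 * Real.log (1 + w / s) :=
    mul_le_mul_of_nonneg_left hlog (by positivity)
  have h4 : 4 * (s + w) / w ^ 2 * (w * (60 * s ^ 2 + 60 * s * w + 11 * w ^ 2) / (3 * DD w s)) -
      4 / w = 4 * NN w s / (3 * DD w s) := by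
    have : DD w s ≠ 0 := hDD.ne'
    field_simp
    unfold DD NN
    ring
  rw [← h4]
  rw [← e1] at h3
  have e5 : (4 * (s + w) / w ^ 2 * Real.log (s + 1 * w) - 4 * 1 / w - (2 * 1 - 1 ^ 2)) -
      (4 * (s + w) / w ^ 2 * Real.log (s + 0 * w) - 4 * 0 / w - (2 * 0 - 0 ^ 2)) =
      4 * (s + w) / w ^ 2 * (Real.log (s + 1 * w) - Real.log (s + 0 * w)) - 4 / w - 1 := by ring
  rw [e5]
  linarith

theorem avg_l_nonneg {s w : ℝ} (hs : 0 < s) (hw : 0 ≤ w) (hsw : s + w ≤ 2) :
    0 ≤ ∫ v in (0:ℝ)..1, 2 * (1 - v) * (2 / (s + v * w) - 1) := by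
  apply intervalIntegral.integral_nonneg (by norm_num)
  intro v hv
  have hpos : 0 < s + v * w := by have := mul_nonneg hv.1 hw; linarith
  have h1 : s + v * w ≤ 2 := by nlinarith [hv.2]
  have h2 : 1 ≤ 2 / (s + v * w) := by rwa [le_div_iff₀ hpos, one_mul]
  have h3 : 0 ≤ 1 - v := by linarith [hv.2]
  have h4 : 0 ≤ 2 / (s + v * w) - 1 := by linarith
  positivity

theorem avg_r_nonneg {s w : ℝ} (hs : 0 < s) (hs2 : s ≤ 2) (hw : 0 ≤ w) (hws : w ≤ s) :
    0 ≤ ∫ v in (0:ℝ)..1, 2 * (1 - v) * (2 / (s - v * w) - 1) := by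
  apply intervalIntegral.integral_nonneg (by norm_num)
  intro v hv
  rcases hv.2.eq_or_lt with h | h
  · rw [h]; simp
  have hpos : 0 < s - v * w := by nlinarith [hv.1]
  have h1 : s - v * w ≤ 2 := by nlinarith [hv.1]
  have h2 : 1 ≤ 2 / (s - v * w) := by rwa [le_div_iff₀ hpos, one_mul]
  have h3 : 0 ≤ 1 - v := by linarith [hv.2]
  have h4 : 0 ≤ 2 / (s - v * w) - 1 := by linarith
  positivity

theorem avg_r_le {s w : ℝ} (hs : 0 < s) (hs2 : s ≤ 2) (hw : 0 ≤ w) (hws : w ≤ s) :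
    ∫ v in (0:ℝ)..1, 2 * (1 - v) * (2 / (s - v * w) - 1) ≤ TT (w / s) / s - 1 := by
  set y := w / s with hy
  have hy0 : 0 ≤ y := by positivity
  have hy1 : y ≤ 1 := by rw [hy, div_le_one hs]; exact hws
  have hwy : w = s * y := by rw [hy]; field_simp
  set g : ℝ → ℝ := fun v => 4 / s * ((1 - v) * (1 + v * y + v ^ 2 * y ^ 2 + v ^ 3 * y ^ 3) +
    v ^ 4 * y ^ 4) - 2 * (1 - v) with hg
  have hgc : Continuous g := by rw [hg]; fun_prop
  have hgint : IntervalIntegrable g volume 0 1 := hgc.intervalIntegrable _ _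
  have hle : ∀ v ∈ Ioc (0:ℝ) 1, 2 * (1 - v) * (2 / (s - v * w) - 1) ≤ g v := by
    intro v hv
    simp only [hg]
    rcases hv.2.eq_or_lt with h | h
    · rw [h]; simp; positivity
    have hvy : v * y < 1 := by nlinarith [hv.1]
    have h1 : 0 < 1 - v * y := by linarith
    have e : 2 * (1 - v) * (2 / (s - v * w) - 1) = 4 / s * ((1 - v) / (1 - v * y)) - 2 * (1 - v) := by
      have h2 : s - v * w = s * (1 - v * y) := by rw [hwy]; ring
      rw [h2]
      field_simp
      ring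
    rw [e]
    have h3 : (1 - v) / (1 - v * y) ≤ (1 - v) * (1 + v * y + v ^ 2 * y ^ 2 + v ^ 3 * y ^ 3) +
        v ^ 4 * y ^ 4 := by
      rw [div_le_iff₀ h1]
      have h4 : 0 ≤ v ^ 5 * y ^ 4 * (1 - y) := by
        have : 0 ≤ v := hv.1.le
        have : 0 ≤ 1 - y := by linarith
        positivity
      nlinarith
    have h5 := mul_le_mul_of_nonneg_left h3 (by positivity : 0 ≤ 4 / s)
    linarith
  have hnn : ∀ v ∈ Ioc (0:ℝ) 1, 0 ≤ 2 * (1 - v) * (2 / (s - v * w) - 1) := by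
    intro v hv
    rcases hv.2.eq_or_lt with h | h
    · rw [h]; simp
    have hpos : 0 < s - v * w := by nlinarith [hv.1]
    have h1 : s - v * w ≤ 2 := by nlinarith [hv.1]
    have h2 : 1 ≤ 2 / (s - v * w) := by rwa [le_div_iff₀ hpos, one_mul]
    have h3 : 0 ≤ 1 - v := by linarith [hv.2]
    have h4 : 0 ≤ 2 / (s - v * w) - 1 := by linarith
    positivity
  have hfint : IntervalIntegrable (fun v => 2 * (1 - v) * (2 / (s - v * w) - 1)) volume 0 1 := by
    refine hgint.mono_fun' ?_ ?_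
    · apply Measurable.aestronglyMeasurable
      fun_prop
    · rw [uIoc_of_le (by norm_num)]
      filter_upwards [ae_restrict_mem measurableSet_Ioc] with v hv
      rw [Real.norm_eq_abs, abs_of_nonneg (hnn v hv)]
      exact hle v hv
  have h1 : ∫ v in (0:ℝ)..1, 2 * (1 - v) * (2 / (s - v * w) - 1) ≤ ∫ v in (0:ℝ)..1, g v := by
    rw [intervalIntegral.integral_of_le (by norm_num), intervalIntegral.integral_of_le (by norm_num)]
    apply MeasureTheory.setIntegral_mono_on hfint.1 hgint.1 measurableSet_Ioc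
    exact hle
  refine h1.trans (le_of_eq ?_)
  have h2 : ∫ v in (0:ℝ)..1, g v =
      (4 / s * ((1 - (1:ℝ) / 2) * 1 + (1 / 2 - 1 / 3) * y + (1 / 3 - 1 / 4) * y ^ 2 +
        (1 / 4 - 1 / 5) * y ^ 3 + 1 / 5 * y ^ 4) - 1) - 0 := by
    have h3 := intervalIntegral.integral_eq_sub_of_hasDerivAt (a := 0) (b := 1)
      (f := fun v : ℝ => 4 / s * ((v - v ^ 2 / 2) + (v ^ 2 / 2 - v ^ 3 / 3) * y +
        (v ^ 3 / 3 - v ^ 4 / 4) * y ^ 2 + (v ^ 4 / 4 - v ^ 5 / 5) * y ^ 3 + v ^ 5 / 5 * y ^ 4) -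
        (2 * v - v ^ 2)) (f' := g) ?_ hgint
    · rw [h3]; norm_num
    · intro v _
      have h0 := hasDerivAt_id' v
      have hp2 : HasDerivAt (fun r : ℝ => r ^ 2) (2 * v) v := by
        have := hasDerivAt_pow 2 v; simpa using this
      have hp3 : HasDerivAt (fun r : ℝ => r ^ 3) (3 * v ^ 2) v := by
        have := hasDerivAt_pow 3 v; simpa using this
      have hp4 : HasDerivAt (fun r : ℝ => r ^ 4) (4 * v ^ 3) v := by
        have := hasDerivAt_pow 4 v; simpa using this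
      have hp5 : HasDerivAt (fun r : ℝ => r ^ 5) (5 * v ^ 4) v := by
        have := hasDerivAt_pow 5 v; simpa using this
      have h4 := ((((((h0.sub (hp2.div_const 2)).add
        (((hp2.div_const 2).sub (hp3.div_const 3)).mul_const y)).add
        (((hp3.div_const 3).sub (hp4.div_const 4)).mul_const (y ^ 2))).add
        (((hp4.div_const 4).sub (hp5.div_const 5)).mul_const (y ^ 3))).add
        ((hp5.div_const 5).mul_const (y ^ 4))).const_mul (4 / s)).sub
        ((h0.const_mul 2).sub hp2)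
      refine h4.congr_deriv ?_
      simp only [hg]
      ring
  rw [h2]
  unfold TT
  field_simp
  ring

/-! ### The inequality -/

theorem E_alg {s y ρ : ℝ} (hs0 : 0 < s) (hs2 : s < 2) (hy : 1 / 2 ≤ y) (hy1 : y ≤ 1)
    (h2 : 1 - s / 2 ≤ ρ) (h2' : ρ ≤ 2 - s) :
    ∃ c, (Cs s - s * y) * (TT y - s) ≤ c ∧ c ≤ (Cs s + ρ) * (s * (4 * NN ρ s / (3 * DD ρ s) - 1)) := by
  have hσ : 0 < 1 - s / 2 := by linarith
  have hρ : 0 < ρ := by linarith
  obtain ⟨u, hu⟩ : ∃ u, u = ρ / (1 - s / 2) - 1 := ⟨_, rfl⟩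
  have hu0 : 0 ≤ u := by rw [hu, sub_nonneg, le_div_iff₀ hσ]; linarith
  have hu1 : u ≤ 1 := by
    have : ρ / (1 - s / 2) ≤ 2 := by rw [div_le_iff₀ hσ]; linarith
    linarith
  have hρu : ρ = (1 - s / 2) * (1 + u) := by
    have h9 : 1 + u = ρ / (1 - s / 2) := by rw [hu]; ring
    rw [h9, mul_div_cancel₀ _ hσ.ne']
  have hDD : 0 < DD ρ s := by unfold DD; positivity
  rcases lt_or_ge s (2 / 5) with h1 | h1
  · refine ⟨2 * s * (4 - s) / (1 + 3 * s), ?_, ?_⟩
    · have h := EL1 (y := y) (s := s) hy hy1 hs0.le h1.le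
      rw [Cs_of_lt h1, le_div_iff₀ (by positivity)]
      have e : (3 * s * (1 + s) / (1 + 3 * s) - s * y) * (TT y - s) * (1 + 3 * s) =
          s * ((3 * (1 + s) - y * (1 + 3 * s)) * (TT y - s)) := by
        field_simp
      rw [e]
      nlinarith
    · have h := ER1 (u := u) (s := s) hu0 hu1 hs0.le h1.le
      rw [← hρu] at h
      rw [Cs_of_lt h1]
      have e : (3 * s * (1 + s) / (1 + 3 * s) + ρ) * (s * (4 * NN ρ s / (3 * DD ρ s) - 1)) -
          2 * s * (4 - s) / (1 + 3 * s) = s / (3 * DD ρ s * (1 + 3 * s)) *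
          ((3 * s * (1 + s) + ρ * (1 + 3 * s)) * (4 * NN ρ s - 3 * DD ρ s) -
            6 * (4 - s) * DD ρ s) := by
        field_simp
        ring
      have h5 : 0 ≤ s / (3 * DD ρ s * (1 + 3 * s)) := by positivity
      have h6 := mul_nonneg h5 h
      rw [← e] at h6
      linarith
  rcases le_or_gt s 1 with h3 | h3
  · refine ⟨127 / 100, ?_, ?_⟩
    · have h := EL2 (y := y) (s := s) hy hy1 h1 h3
      rw [Cs_of_le_one h1 h3]
      linarith
    · have h := ER2 (u := u) (s := s) hu0 hu1 h1 h3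
      rw [← hρu] at h
      rw [Cs_of_le_one h1 h3]
      have e : (1 / 3 + s + ρ) * (s * (4 * NN ρ s / (3 * DD ρ s) - 1)) - 127 / 100 =
          1 / (3 * DD ρ s) * ((1 / 3 + s + ρ) * (4 * s * NN ρ s - 3 * s * DD ρ s) -
            3 * (127 / 100) * DD ρ s) := by
        field_simp
      have h5 : 0 ≤ 1 / (3 * DD ρ s) := by positivity
      have h6 := mul_nonneg h5 h
      rw [← e] at h6
      linarith
  rcases le_or_gt s (8 / 5) with h4 | h4
  · refine ⟨67 / 20 - 21 / 10 * s, ?_, ?_⟩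
    · have h := EL3 (y := y) (s := s) hy hy1 h3.le h4
      rw [Cs_of_le h3 h4]
      linarith
    · have h := ER3 (u := u) (s := s) hu0 hu1 h3.le h4
      rw [← hρu] at h
      rw [Cs_of_le h3 h4]
      have e : (7 / 3 - s + ρ) * (s * (4 * NN ρ s / (3 * DD ρ s) - 1)) - (67 / 20 - 21 / 10 * s) =
          1 / (3 * DD ρ s) * ((7 / 3 - s + ρ) * (4 * s * NN ρ s - 3 * s * DD ρ s) -
            3 * (67 / 20 - 21 / 10 * s) * DD ρ s) := by
        field_simp
      have h5 : 0 ≤ 1 / (3 * DD ρ s) := by positivity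
      have h6 := mul_nonneg h5 h
      rw [← e] at h6
      linarith
  · obtain ⟨t, ht⟩ : ∃ t, t = 2 - s := ⟨_, rfl⟩
    have hst : s = 2 - t := by linarith
    have ht0 : 0 ≤ t := by linarith
    have ht1 : t ≤ 2 / 5 := by linarith
    have hρt : ρ = t / 2 * (1 + u) := by rw [hρu, hst]; ring
    refine ⟨t / 2 * (3 / 4 + t), ?_, ?_⟩
    · have h := EL4 (y := y) (t := t) hy hy1 ht0 ht1
      rw [← hst] at h
      rw [Cs_of_gt h4]
      linarith
    · have h := ER4 (u := u) (t := t) hu0 hu1 ht0 ht1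
      rw [← hρt, ← hst] at h
      rw [Cs_of_gt h4]
      have e : (1 + ρ) * (s * (4 * NN ρ s / (3 * DD ρ s) - 1)) - t / 2 * (3 / 4 + t) =
          1 / (3 * DD ρ s) * ((1 + ρ) * (4 * s * NN ρ s - 3 * s * DD ρ s) -
            3 * (t / 2 * (3 / 4 + t)) * DD ρ s) := by
        field_simp
      have h5 : 0 ≤ 1 / (3 * DD ρ s) := by positivity
      have h6 := mul_nonneg h5 h
      rw [← e] at h6
      linarith

/-- The inequality (E). -/
theorem E_ineq {s w1 w2 : ℝ} (hs0 : 0 < s) (hs2 : s < 2) (h1 : s / 2 ≤ w1) (h1' : w1 ≤ s)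
    (h2 : 1 - s / 2 ≤ w2) (h2' : w2 ≤ 2 - s) :
    (Cs s - w1) * (∫ v in (0:ℝ)..1, 2 * (1 - v) * (2 / (s - v * w1) - 1)) ≤
      (Cs s + w2) * ∫ v in (0:ℝ)..1, 2 * (1 - v) * (2 / (s + v * w2) - 1) := by
  have hw1 : 0 < w1 := by linarith
  have hw2 : 0 < w2 := by linarith
  have hC := Cs_pos hs0
  have hr0 := avg_r_nonneg hs0 hs2.le hw1.le h1'
  have hl0 := avg_l_nonneg hs0 hw2.le (by linarith)
  have hr := avg_r_le hs0 hs2.le hw1.le h1'
  have hl := avg_l_ge hs0 hw2
  rcases le_or_gt (Cs s - w1) 0 with h | h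
  · have h3 := mul_nonpos_of_nonpos_of_nonneg h hr0
    have h4 := mul_nonneg (by linarith : 0 ≤ Cs s + w2) hl0
    linarith
  obtain ⟨c, hc1, hc2⟩ := E_alg (s := s) (y := w1 / s) (ρ := w2) hs0 hs2
    (by rw [le_div_iff₀ hs0]; linarith) (by rw [div_le_one hs0]; exact h1') h2 h2'
  have e1 : s * (w1 / s) = w1 := by field_simp
  rw [e1] at hc1
  have h5 : (Cs s - w1) * (TT (w1 / s) / s - 1) ≤ c / s := by
    rw [le_div_iff₀ hs0]
    have : (Cs s - w1) * (TT (w1 / s) / s - 1) * s = (Cs s - w1) * (TT (w1 / s) - s) := by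
      field_simp
    rw [this]; exact hc1
  have h6 : c / s ≤ (Cs s + w2) * (4 * NN w2 s / (3 * DD w2 s) - 1) := by
    rw [div_le_iff₀ hs0]
    linarith
  calc _ ≤ (Cs s - w1) * (TT (w1 / s) / s - 1) := mul_le_mul_of_nonneg_left hr h.le
    _ ≤ c / s := h5
    _ ≤ (Cs s + w2) * (4 * NN w2 s / (3 * DD w2 s) - 1) := h6
    _ ≤ _ := mul_le_mul_of_nonneg_left hl (by linarith)

end Pool.Agent.K1
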