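import Pool.Agent.K1.Asm
import Pool.Agent.HKone.KPairs

/-!
# Order `k = 1`: the pointwise bound in the middle region
-/

set_option autoImplicit false

namespace Pool.Agent.K1

open Pool.Agent.HStar Pool.Agent.HHalf Set

/-- The pointwise bound of order one, for every list of pairs with `(1+x)/2 ≤ Re L a` and
`Re L b ≤ (x-1)/2` for some `a`, `b`. -/
theorem pw_one {N : ℕ} {L : Fin N → ℂ} (hL : ∀ a, ‖L a‖ ≤ 1) {x : ℝ} (hx0 : -1 < x) (hx1 : x < 1)
    {a b : Fin N} (ha : (1 + x) / 2 ≤ (L a).re) (hb : (L b).re ≤ (x - 1) / 2) : PW L 1 x := by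
  have hab : a ≠ b := by
    intro h
    rw [h] at ha
    linarith
  have hN : 2 ≤ N := by
    by_contra hcon
    push Not at hcon
    have h1 := a.2
    have h2 := b.2
    apply hab
    apply Fin.ext
    omega
  have hcard : Fintype.card (Fin (2 * N)) = Fintype.card (Fin N × Bool) := by
    simp only [Fintype.card_fin, Fintype.card_prod, Fintype.card_bool]
    omega
  have e := Fintype.equivOfCardEq hcard
  exact pw_of_kernels hN hL hx0 hx1 e
    (fun ξ hξ => (Pool.Agent.HKone.kone hL hx0 hx1 ha hb e hξ).1)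
    (fun ξ hξ => (Pool.Agent.HKone.kone hL hx0 hx1 ha hb e hξ).2)

end Pool.Agent.K1
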