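import Pool.Agent.K1.Pairs
import Pool.Agent.K1.EIneq

/-!
# The real inequality of order `k = 1`

`G_all`: `2 ω(x) ≤ C(1-x) (M - ω'(x)) + C(1+x) (M + ω'(x))` for every list of at least two
conjugate pairs in the closed disc, every `M ≥ |ω'|` on `[-1,1]` and every `x ∈ (-1,1)`.
-/

set_option autoImplicit false

namespace Pool.Agent.K1

open Finset Set

variable {N : ℕ} {L : Fin N → ℂ}

/-- Two pairs: the value at `2/3`. -/
theorem two_pairs (L : Fin 2 → ℂ) (hL : ∀ a, ‖L a‖ ≤ 1) {M : ℝ}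
    (hM : ∀ u ∈ Icc (-1:ℝ) 1, |dWp L u| ≤ M) : Wp L (2 / 3) ≤ 8 / 15 * M := by
  have h1 := Wp_one_le hL
  have e : 1 / 2 * dWp L 1 - (Wp L 1 - Wp L (2 / 3)) =
      101 / 324 * dWp L 1 - 41 / 243 * dWp L (1 / 2) + 1 / 27 * dWp L (-1 / 2) -
        13 / 972 * dWp L (-1) := by
    have e0 : (univ : Finset (Fin 2)).erase 0 = {1} := by decide
    have e1 : (univ : Finset (Fin 2)).erase 1 = {0} := by decide
    simp only [Wp, dWp, Fin.prod_univ_two, Fin.sum_univ_two, e0, e1, Finset.prod_singleton, pq]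
    ring
  have a1 := abs_le.1 (hM 1 ⟨by norm_num, by norm_num⟩)
  have a2 := abs_le.1 (hM (1 / 2) ⟨by norm_num, by norm_num⟩)
  have a3 := abs_le.1 (hM (-1 / 2) ⟨by norm_num, by norm_num⟩)
  have a4 := abs_le.1 (hM (-1) ⟨by norm_num, by norm_num⟩)
  push_cast at h1
  linarith [a1.1, a1.2, a2.1, a2.2, a3.1, a3.2, a4.1, a4.2]

/-- A sufficient condition. -/
theorem G_of_le {W D M A B c : ℝ} (hD : |D| ≤ M) (hW : W ≤ c * M) (hA : c ≤ A) (hB : c ≤ B) :
    2 * W ≤ A * (M - D) + B * (M + D) := by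
  have h := abs_le.1 hD
  have h1 : 0 ≤ (A - c) * (M - D) := mul_nonneg (by linarith) (by linarith [h.2])
  have h2 : 0 ≤ (B - c) * (M + D) := mul_nonneg (by linarith) (by linarith [h.1])
  nlinarith

/-- The inequality (G) for `x ∈ [0,1)`. -/
theorem G_pos (hN : 2 ≤ N) (hL : ∀ a, ‖L a‖ ≤ 1) {M : ℝ}
    (hM : ∀ u ∈ Icc (-1:ℝ) 1, |dWp L u| ≤ M) {x : ℝ} (hx0 : 0 ≤ x) (hx1 : x < 1) :
    2 * Wp L x ≤ Cs (1 - x) * (M - dWp L x) + Cs (1 + x) * (M + dWp L x) := by
  have hxI : x ∈ Icc (-1:ℝ) 1 := ⟨by linarith, hx1.le⟩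
  have hD := hM x hxI
  have hM0 : 0 ≤ M := (abs_nonneg _).trans hD
  have hNR : (2:ℝ) ≤ N := by exact_mod_cast hN
  have hcr := crude (by omega) hL hM hxI
  -- the constants
  rcases le_or_gt x (3 / 5) with h1 | h1
  · -- `A = B = 4/3 - x`
    have hA : Cs (1 - x) = 4 / 3 - x := by
      rw [Cs_of_le_one (by linarith) (by linarith)]; ring
    have hB : 4 / 3 - x ≤ Cs (1 + x) := by
      rcases hx0.eq_or_lt with h0 | h0
      · rw [← h0, Cs_of_le_one (by norm_num) (by norm_num)]; norm_num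
      · rw [Cs_of_le (by linarith) (by linarith)]; linarith
    rcases Nat.lt_or_ge N 3 with h3 | h3
    · -- two pairs
      have hN2 : N = 2 := by omega
      subst hN2
      have h2 := two_pairs L hL hM
      have h4 := Wp_sub_le hM (x := 2 / 3) (y := x) ⟨by norm_num, by norm_num⟩ hxI
      rw [abs_sub_comm, abs_of_nonneg (by linarith)] at h4
      refine G_of_le (c := 6 / 5 - x) hD (by linarith) ?_ ?_
      · rw [hA]; linarith
      · linarith
    · have hN3 : (3:ℝ) ≤ N := by exact_mod_cast h3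
      refine G_of_le (c := 4 / 3 - x) hD ?_ (by rw [hA]) hB
      have h5 : (N:ℝ) * Wp L x ≤ N * ((4 / 3 - x) * M) := by nlinarith
      exact le_of_mul_le_mul_left h5 (by linarith)
  · -- `B = 1`
    obtain ⟨t, ht⟩ : ∃ t, t = 1 - x := ⟨_, rfl⟩
    have hxt : x = 1 - t := by linarith
    have ht0 : 0 < t := by linarith
    have ht1 : t < 2 / 5 := by linarith
    rw [Cs_of_gt (by linarith : 8 / 5 < 1 + x), ← ht, Cs_of_lt ht1]
    rcases le_or_gt (dWp L x) 0 with h2 | h2
    · have h3 := poly_lemma hN hL hM ht0 ht1.le (by rw [← hxt]; exact h2)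
      rw [← hxt] at h3
      have e : (1 + 3 * t) * (3 * t * (1 + t) / (1 + 3 * t) * (M - dWp L x) + 1 * (M + dWp L x)) =
          3 * t * (1 + t) * (M - dWp L x) + (1 + 3 * t) * (M + dWp L x) := by
        field_simp
      have h4 : (1 + 3 * t) * (2 * Wp L x) ≤
          (1 + 3 * t) * (3 * t * (1 + t) / (1 + 3 * t) * (M - dWp L x) + 1 * (M + dWp L x)) := by
        rw [e]; linarith
      exact le_of_mul_le_mul_left h4 (by linarith)
    -- `ω'(x) > 0`
    obtain ⟨A, hA⟩ : ∃ A, A = 3 * t * (1 + t) / (1 + 3 * t) := ⟨_, rfl⟩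
    rw [← hA]
    have hA1 : A ≤ 1 := by
      rw [hA, div_le_one (by linarith)]; nlinarith
    have hDM : dWp L x ≤ M := (le_abs_self _).trans hD
    have hred : 2 * Wp L x ≤ (1 + A) * M →
        2 * Wp L x ≤ A * (M - dWp L x) + 1 * (M + dWp L x) := by
      intro h
      have : 0 ≤ (1 - A) * dWp L x := mul_nonneg (by linarith) h2.le
      linarith
    rcases Nat.lt_or_ge N 3 with h3 | h3
    · have hN2 : N = 2 := by omega
      subst hN2
      rcases le_or_gt x (2 / 3) with h6 | h6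
      · have h7 := two_pairs L hL hM
        have h4 := Wp_sub_le hM (x := 2 / 3) (y := x) ⟨by norm_num, by norm_num⟩ hxI
        rw [abs_sub_comm, abs_of_nonneg (by linarith)] at h4
        refine G_of_le (c := 6 / 5 - x) hD (by linarith) ?_ (by linarith)
        rw [hA, le_div_iff₀ (by linarith), hxt]
        nlinarith
      · apply hred
        have hA2 : 2 * t ≤ A := by
          rw [hA, le_div_iff₀ (by linarith)]
          nlinarith
        have h8 : (2 * t + 1) * M ≤ (1 + A) * M := mul_le_mul_of_nonneg_right (by linarith) hM0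
        have h9 : 2 * Wp L x ≤ (2 * t + 1) * M := by
          rw [← ht] at hcr
          push_cast at hcr
          linarith
        linarith
    · have hN3 : (3:ℝ) ≤ N := by exact_mod_cast h3
      apply hred
      have hA2 : 2 * t - 1 / 3 ≤ A := by
        rw [hA, le_div_iff₀ (by linarith)]
        nlinarith
      rw [← ht] at hcr
      have h5 : (N:ℝ) * Wp L x ≤ N * ((t + 1 / 3) * M) := by nlinarith
      have h6 : Wp L x ≤ (t + 1 / 3) * M := le_of_mul_le_mul_left h5 (by linarith)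
      have h8 : (2 * t + 2 / 3) * M ≤ (1 + A) * M := mul_le_mul_of_nonneg_right (by linarith) hM0
      linarith

/-! ### The mirror -/

theorem pq_neg (z : ℂ) (u : ℝ) : pq (-z) (-u) = pq z u := by
  unfold pq; simp only [Complex.neg_re, Complex.neg_im]; ring

theorem Wp_neg (L : Fin N → ℂ) (u : ℝ) : Wp (fun a => -L a) (-u) = Wp L u := by
  unfold Wp; simp only [pq_neg]

theorem dWp_neg (L : Fin N → ℂ) (u : ℝ) : dWp (fun a => -L a) (-u) = -dWp L u := by
  unfold dWp
  rw [← Finset.sum_neg_distrib]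
  apply Finset.sum_congr rfl
  intro a _
  simp only [pq_neg, Complex.neg_re]
  ring

/-- The inequality (G). -/
theorem G_all (hN : 2 ≤ N) (hL : ∀ a, ‖L a‖ ≤ 1) {M : ℝ}
    (hM : ∀ u ∈ Icc (-1:ℝ) 1, |dWp L u| ≤ M) {x : ℝ} (hx0 : -1 < x) (hx1 : x < 1) :
    2 * Wp L x ≤ Cs (1 - x) * (M - dWp L x) + Cs (1 + x) * (M + dWp L x) := by
  rcases le_total 0 x with h | h
  · exact G_pos hN hL hM h hx1
  · have h1 := G_pos (L := fun a => -L a) hN (fun a => by rw [norm_neg]; exact hL a) (M := M)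
      (fun u hu => by
        have h2 := dWp_neg L (-u)
        rw [neg_neg] at h2
        rw [h2, abs_neg]
        exact hM (-u) ⟨by linarith [hu.2], by linarith [hu.1]⟩)
      (x := -x) (by linarith) (by linarith)
    rw [Wp_neg, dWp_neg] at h1
    have e1 : (1:ℝ) - -x = 1 + x := by ring
    have e2 : (1:ℝ) + -x = 1 - x := by ring
    rw [e1, e2] at h1
    linarith

end Pool.Agent.K1
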