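import Pool.Agent.K1.Bern

/-!
# The polynomial lemma (order `k = 1`): abstract form

`lam j = -t p_j'(x)/p_j(x)`, `g j = t²/p_j(x)` (`x = 1 - t`), `w = t M/ω(x)`, `E = ∑ lam j`.
-/

set_option autoImplicit false

namespace Pool.Agent.K1

open Finset

/-- Weierstrass' product inequality. -/
theorem one_sub_sum_le_prod {ι : Type*} (s : Finset ι) (y : ι → ℝ) (h0 : ∀ i ∈ s, 0 ≤ y i)
    (h1 : ∀ i ∈ s, y i ≤ 1) : 1 - ∑ i ∈ s, y i ≤ ∏ i ∈ s, (1 - y i) := by
  classical
  induction s using Finset.induction_on with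
  | empty => simp
  | insert a s ha ih =>
    rw [Finset.sum_insert ha, Finset.prod_insert ha]
    have h0' := h0 a (mem_insert_self _ _)
    have h1' := h1 a (mem_insert_self _ _)
    have ih' := ih (fun i hi => h0 i (mem_insert_of_mem hi)) (fun i hi => h1 i (mem_insert_of_mem hi))
    have hs : 0 ≤ ∑ i ∈ s, y i := Finset.sum_nonneg (fun i hi => h0 i (mem_insert_of_mem hi))
    have := mul_le_mul_of_nonneg_left ih' (by linarith : 0 ≤ 1 - y a)
    nlinarith

/-- `∏ (1 + c_i) ≥ 1 + ∑ c_i`. -/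
theorem one_add_sum_le_prod {ι : Type*} (s : Finset ι) (y : ι → ℝ) (h0 : ∀ i ∈ s, 0 ≤ y i) :
    1 + ∑ i ∈ s, y i ≤ ∏ i ∈ s, (1 + y i) := by
  classical
  induction s using Finset.induction_on with
  | empty => simp
  | insert a s ha ih =>
    rw [Finset.sum_insert ha, Finset.prod_insert ha]
    have h0' := h0 a (mem_insert_self _ _)
    have ih' := ih (fun i hi => h0 i (mem_insert_of_mem hi))
    have hs : 0 ≤ ∑ i ∈ s, y i := Finset.sum_nonneg (fun i hi => h0 i (mem_insert_of_mem hi))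
    have := mul_le_mul_of_nonneg_left ih' (by linarith : 0 ≤ 1 + y a)
    nlinarith

/-- Subadditivity of `K ↦ 2K/(2+K)`. -/
theorem subadd_sum {ι : Type*} (s : Finset ι) (y : ι → ℝ) (h0 : ∀ i ∈ s, 0 ≤ y i) :
    2 * (∑ i ∈ s, y i) / (2 + ∑ i ∈ s, y i) ≤ ∑ i ∈ s, 2 * y i / (2 + y i) := by
  classical
  induction s using Finset.induction_on with
  | empty => simp
  | insert a s ha ih =>
    rw [Finset.sum_insert ha, Finset.sum_insert ha]
    have h0' := h0 a (mem_insert_self _ _)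
    have ih' := ih (fun i hi => h0 i (mem_insert_of_mem hi))
    have hs : 0 ≤ ∑ i ∈ s, y i := Finset.sum_nonneg (fun i hi => h0 i (mem_insert_of_mem hi))
    set S := ∑ i ∈ s, y i with hS
    have hh : 2 * (y a + S) / (2 + (y a + S)) ≤ 2 * y a / (2 + y a) + 2 * S / (2 + S) := by
      rw [div_add_div _ _ (by positivity) (by positivity), div_le_div_iff₀ (by positivity)
        (by positivity)]
      have h3 : 0 ≤ y a * S := mul_nonneg h0' hs
      nlinarith [mul_nonneg h3 h0', mul_nonneg h3 hs, mul_nonneg h3 h3]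
    linarith

/-- Expansion of `∏ (u_i + β x_i)`, one distinguished factor. -/
theorem prod_expand {ι : Type*} (s : Finset ι) (u x : ι → ℝ) {β u0 x0 : ℝ} (hβ : 0 ≤ β)
    (hx0 : 0 ≤ x0) (hu : ∀ i ∈ s, 0 ≤ u i) (hu0 : ∀ i ∈ s, u i ≤ u0) (_hu00 : 0 ≤ u0)
    (hx : ∀ i ∈ s, 0 ≤ x i) :
    (∏ i ∈ s, u i) * (u0 + β * (x0 + ∑ i ∈ s, x i)) ≤ (∏ i ∈ s, (u i + β * x i)) * (u0 + β * x0) := by
  classical
  induction s using Finset.induction_on with
  | empty => simp
  | insert a s ha ih =>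
    rw [Finset.sum_insert ha, Finset.prod_insert ha, Finset.prod_insert ha]
    have hua := hu a (mem_insert_self _ _)
    have hua0 := hu0 a (mem_insert_self _ _)
    have hxa := hx a (mem_insert_self _ _)
    have ih' := ih (fun i hi => hu i (mem_insert_of_mem hi)) (fun i hi => hu0 i (mem_insert_of_mem hi))
      (fun i hi => hx i (mem_insert_of_mem hi))
    have hs : 0 ≤ ∑ i ∈ s, x i := Finset.sum_nonneg (fun i hi => hx i (mem_insert_of_mem hi))
    have hU : 0 ≤ ∏ i ∈ s, u i := Finset.prod_nonneg (fun i hi => hu i (mem_insert_of_mem hi))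
    set S := ∑ i ∈ s, x i with hS
    set U := ∏ i ∈ s, u i with hUd
    have h1 : U * (u0 + β * (x0 + S)) * (u a + β * x a) ≤
        ((∏ i ∈ s, (u i + β * x i)) * (u0 + β * x0)) * (u a + β * x a) :=
      mul_le_mul_of_nonneg_right ih' (by positivity)
    have h2 : u a * U * (u0 + β * (x0 + (x a + S))) ≤ U * (u0 + β * (x0 + S)) * (u a + β * x a) := by
      have h3 : 0 ≤ U * (β * x a * (u0 - u a + β * (x0 + S))) := by
        have : 0 ≤ u0 - u a := by linarith
        positivity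
      nlinarith
    calc u a * U * (u0 + β * (x0 + (x a + S))) ≤ U * (u0 + β * (x0 + S)) * (u a + β * x a) := h2
      _ ≤ ((∏ i ∈ s, (u i + β * x i)) * (u0 + β * x0)) * (u a + β * x a) := h1
      _ = _ := by ring

/-- The final step: (a), (b), (c) imply (G). -/
theorem final_step {t w E K : ℝ} (ht0 : 0 < t) (ht : t ≤ 2 / 5) (hK : 2 * t / (2 - t) ≤ K)
    (hE : 0 ≤ E) (hEw : E ≤ w)
    (ha : (t + 2 * K / (2 + K)) ≤ w * (1 + (t + 2 * K / (2 + K))))
    (hb : Fk K t * (2 - K - E) ≤ (2 - t) * w)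
    (hc : ∀ ν : ℝ, 0 < ν → ν * K ≤ 2 → (1 + ν) * t ≤ 2 →
      Gk ν K t * E + Hk ν K t ≤ ν * (2 - t) * w) :
    2 * t * (1 + 3 * t) + (1 - 3 * t ^ 2) * E ≤ (1 + 6 * t + 3 * t ^ 2) * w := by
  have hKt : t ≤ K := by
    refine le_trans ?_ hK
    rw [le_div_iff₀ (by linarith)]
    nlinarith
  have hK0 : 0 < K := lt_of_lt_of_le ht0 hKt
  -- a sufficient condition
  have hsuff : (1 + 3 * t) ≤ 3 * (1 + t) * w →
      2 * t * (1 + 3 * t) + (1 - 3 * t ^ 2) * E ≤ (1 + 6 * t + 3 * t ^ 2) * w := by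
    intro h
    have h1 : (1 - 3 * t ^ 2) * E ≤ (1 - 3 * t ^ 2) * w :=
      mul_le_mul_of_nonneg_left hEw (by nlinarith)
    nlinarith
  rcases le_total (23 / 20) K with h1 | h1
  · -- (a)
    apply hsuff
    have h2 : 46 / 63 ≤ 2 * K / (2 + K) := by
      rw [div_le_div_iff₀ (by norm_num) (by linarith)]
      nlinarith
    set S := t + 2 * K / (2 + K) with hS
    have h3 : 46 / 63 + t ≤ S := by rw [hS]; linarith
    have hw0 : 0 ≤ w := le_trans hE hEw
    have hw1 : S ≤ w * (1 + S) := ha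
    have h4 : (46 / 63 + t) ≤ w * (1 + (46 / 63 + t)) := by
      by_contra hcon
      push Not at hcon
      have hw2 : w < 1 := by
        by_contra h5
        push Not at h5
        nlinarith
      nlinarith [mul_nonneg (by linarith : 0 ≤ S - (46 / 63 + t)) (by linarith : 0 ≤ 1 - w)]
    nlinarith
  rcases le_total (91 / 200) K with h2 | h2
  · -- (b) alone
    apply hsuff
    have hbo := bonly (K := K) (t := t) h2 h1 ht0.le ht
    have hF : 0 < Fk K t := by unfold Fk; positivity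
    have h3 : Fk K t * (2 - K - w) ≤ (2 - t) * w := by
      refine le_trans ?_ hb
      exact mul_le_mul_of_nonneg_left (by linarith) hF.le
    have h4 : Fk K t * (2 - K) ≤ (2 - t + Fk K t) * w := by nlinarith
    have h5 : (2 - t + Fk K t) * (1 + 3 * t) ≤ Fk K t * (2 - K) * (3 * (1 + t)) := by nlinarith
    have h6 : (2 - t + Fk K t) * (1 + 3 * t) ≤ (2 - t + Fk K t) * (3 * (1 + t) * w) := by
      calc (2 - t + Fk K t) * (1 + 3 * t) ≤ Fk K t * (2 - K) * (3 * (1 + t)) := h5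
        _ ≤ (2 - t + Fk K t) * w * (3 * (1 + t)) :=
          mul_le_mul_of_nonneg_right h4 (by linarith)
        _ = _ := by ring
    exact le_of_mul_le_mul_left h6 (by linarith)
  -- the secant ranges
  obtain ⟨θ, hθ0, hθ1, hθ⟩ : ∃ θ : ℝ, 0 ≤ θ ∧ θ ≤ 1 ∧ t = θ * K :=
    ⟨t / K, by positivity, (div_le_one hK0).2 hKt, by field_simp⟩
  have hcomb : ∀ ν : ℝ, 0 < ν → ν * K ≤ 2 → (1 + ν) * t ≤ 2 → 0 ≤ Bk ν K t → 0 ≤ Dk ν K t →
      0 < Gk ν K t →
      2 * t * (1 + 3 * t) + (1 - 3 * t ^ 2) * E ≤ (1 + 6 * t + 3 * t ^ 2) * w := by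
    intro ν hν hνK hνt hB hD hG
    have hF : 0 < Fk K t := by unfold Fk; positivity
    have hcν := hc ν hν hνK hνt
    have hb2 : 0 ≤ (1 + 6 * t + 3 * t ^ 2) * Fk K t + (1 - 3 * t ^ 2) * (2 - t) := by
      have : 0 ≤ (1 - 3 * t ^ 2) * (2 - t) := mul_nonneg (by nlinarith) (by linarith)
      positivity
    have e1 := mul_le_mul_of_nonneg_left hb hB
    have e2 := mul_le_mul_of_nonneg_left hcν hb2
    have hpos : 0 < (2 - t) * (Gk ν K t + ν * Fk K t) := by
      have : 0 < 2 - t := by linarith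
      positivity
    have e3 : (2 - t) * (Gk ν K t + ν * Fk K t) *
        (2 * t * (1 + 3 * t) + (1 - 3 * t ^ 2) * E) ≤
        (2 - t) * (Gk ν K t + ν * Fk K t) * ((1 + 6 * t + 3 * t ^ 2) * w) := by
      have e4 : Dk ν K t = Bk ν K t * Fk K t * (2 - K) +
        ((1 + 6 * t + 3 * t ^ 2) * Fk K t + (1 - 3 * t ^ 2) * (2 - t)) * Hk ν K t -
        2 * t * (1 + 3 * t) * (2 - t) * (Gk ν K t + ν * Fk K t) := rfl
      have e5 : Bk ν K t = (1 + 6 * t + 3 * t ^ 2) * Gk ν K t - (1 - 3 * t ^ 2) * ν * (2 - t) := rfl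
      rw [e4] at hD
      have e6 : Bk ν K t * ((2 - t) * w) +
          ((1 + 6 * t + 3 * t ^ 2) * Fk K t + (1 - 3 * t ^ 2) * (2 - t)) * (ν * (2 - t) * w) =
          (2 - t) * (Gk ν K t + ν * Fk K t) * ((1 + 6 * t + 3 * t ^ 2) * w) := by
        rw [e5]; ring
      have e7 : Bk ν K t * (Fk K t * (2 - K - E)) +
          ((1 + 6 * t + 3 * t ^ 2) * Fk K t + (1 - 3 * t ^ 2) * (2 - t)) *
            (Gk ν K t * E + Hk ν K t) =
          Bk ν K t * Fk K t * (2 - K) +
          ((1 + 6 * t + 3 * t ^ 2) * Fk K t + (1 - 3 * t ^ 2) * (2 - t)) * Hk ν K t +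
          (2 - t) * (Gk ν K t + ν * Fk K t) * ((1 - 3 * t ^ 2) * E) := by
        rw [e5]; ring
      linarith
    exact le_of_mul_le_mul_left e3 hpos
  have hGpos : ∀ ν : ℝ, 0 < ν → ν * K < 2 → 0 < Gk ν K t := by
    intro ν hν h
    unfold Gk
    have h3 : 0 < 1 - ν * K / 2 := by linarith
    have h4 : 0 < (2 - t) + ν * (1 - t) := by
      have : 0 ≤ ν * (1 - t) := mul_nonneg hν.le (by linarith)
      linarith
    positivity
  rcases le_total K (1 / 4) with h3 | h3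
  · refine hcomb (5 / 2) (by norm_num) (by linarith) (by linarith) ?_ ?_ (hGpos _ (by norm_num)
      (by linarith))
    · rw [hθ]; exact Bk1 hK0.le h3 hθ0 hθ1
    · rw [hθ]; exact Dk1 hK0.le h3 hθ0 hθ1
  rcases le_total K (21 / 50) with h4 | h4
  · refine hcomb (1 / 2) (by norm_num) (by linarith) (by linarith) ?_ ?_ (hGpos _ (by norm_num)
      (by linarith))
    · rw [hθ]; exact Bk2 h3 h4 hθ0 hθ1
    · rw [hθ]; exact Dk2 h3 h4 hθ0 hθ1
  · refine hcomb (1 / 4) (by norm_num) (by linarith) (by linarith) ?_ ?_ (hGpos _ (by norm_num)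
      (by linarith))
    · rw [hθ]; exact Bk3 h4 h2 hθ0 hθ1
    · rw [hθ]; exact Dk3 h4 h2 hθ0 hθ1

end Pool.Agent.K1
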