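import Pool.Agent.K1.Abs

/-!
# The polynomial lemma (order `k = 1`): the inequalities (a), (b), (c) for families of pairs
-/

set_option autoImplicit false

namespace Pool.Agent.K1

open Finset

section core

variable {ι : Type*} [Fintype ι] [DecidableEq ι]

/-- The abstract polynomial lemma. -/
theorem abs_main (hcard : 2 ≤ Fintype.card ι) {t w E : ℝ} {lam g : ι → ℝ} (ht0 : 0 < t)
    (ht : t ≤ 2 / 5) (f1 : ∀ a, t + (1 - t) * lam a ≤ (2 - t) * g a)
    (f2 : ∀ a, lam a ^ 2 ≤ 4 * g a) (hE : ∑ a, lam a = E) (hE0 : 0 ≤ E) (hEw : E ≤ w)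
    (hS : ∑ a, (2 * g a - lam a) * ∏ b ∈ univ.erase a, (1 - lam b + g b) ≤ w)
    (h1 : 1 ≤ ∏ a, (1 - lam a + g a) + w)
    (hc : ∀ ν : ℝ, 0 < ν → (1 + ν) * t ≤ 2 → ∏ a, (1 + ν * lam a + ν ^ 2 * g a) ≤ 1 + ν * w) :
    2 * t * (1 + 3 * t) + (1 - 3 * t ^ 2) * E ≤ (1 + 6 * t + 3 * t ^ 2) * w := by
  have h2t : 0 < 2 - t := by linarith
  obtain ⟨k0, hk0⟩ : ∃ k0 : ℝ, k0 = 2 * t / (2 - t) := ⟨_, rfl⟩
  have hk0pos : 0 < k0 := by rw [hk0]; positivity
  have hk0e : k0 * (2 - t) = 2 * t := by rw [hk0]; field_simp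
  have h4 : (2 + k0) * (2 - t) = 4 := by nlinarith
  set kap : ι → ℝ := fun a => max k0 (-lam a) with hkap
  set xx : ι → ℝ := fun a => max (lam a + k0) 0 with hxx
  have hlam : ∀ a, lam a = xx a - kap a := by
    intro a
    simp only [hkap, hxx]
    rcases le_total (-lam a) k0 with h | h
    · rw [max_eq_left h, max_eq_left (by linarith)]; ring
    · rw [max_eq_right h, max_eq_right (by linarith)]; ring
  have hkap0 : ∀ a, k0 ≤ kap a := fun a => le_max_left _ _
  have hxx0 : ∀ a, 0 ≤ xx a := fun a => le_max_right _ _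
  -- the distinguished pair
  obtain ⟨i0, hi0⟩ : ∃ i0, 0 ≤ lam i0 := by
    by_contra hcon
    push Not at hcon
    have hne : (univ : Finset ι).Nonempty := by
      rw [← Finset.card_pos, Finset.card_univ]; omega
    have : ∑ a, lam a < 0 := Finset.sum_neg (fun a _ => hcon a) hne
    linarith
  have hki0 : kap i0 = k0 := by
    simp only [hkap]; exact max_eq_left (by linarith)
  obtain ⟨K, hK⟩ : ∃ K : ℝ, K = ∑ a ∈ univ.erase i0, kap a := ⟨_, rfl⟩
  obtain ⟨X, hX⟩ : ∃ X : ℝ, X = ∑ a, xx a := ⟨_, rfl⟩
  have hKsum : ∑ a, kap a = k0 + K := by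
    rw [hK, ← Finset.add_sum_erase univ kap (mem_univ i0), hki0]
  have hEX : E = X - K - k0 := by
    have : ∑ a, lam a = ∑ a, xx a - ∑ a, kap a := by
      rw [← Finset.sum_sub_distrib]
      exact Finset.sum_congr rfl (fun a _ => hlam a)
    rw [← hE, this, hKsum, hX]; ring
  have hKk0 : k0 ≤ K := by
    obtain ⟨j, hj⟩ : ∃ j, j ≠ i0 := by
      have : 1 < Fintype.card ι := by omega
      exact Fintype.exists_ne_of_one_lt_card this i0
    rw [hK]
    calc k0 ≤ kap j := hkap0 j
      _ ≤ ∑ a ∈ univ.erase i0, kap a :=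
        Finset.single_le_sum (f := kap) (fun a _ => hk0pos.le.trans (hkap0 a))
          (Finset.mem_erase.2 ⟨hj, mem_univ _⟩)
  have hK0 : 0 < K := lt_of_lt_of_le hk0pos hKk0
  have hw0 : 0 ≤ w := hE0.trans hEw
  -- facts for one pair
  have hr : ∀ a, (1 + kap a / 2) ^ 2 * (1 - xx a / (2 + k0)) ≤ 1 - lam a + g a := by
    intro a
    rcases le_total (-lam a) k0 with h | h
    · have e1 : kap a = k0 := max_eq_left h
      have e2 : xx a = lam a + k0 := max_eq_left (by linarith)
      rw [e1, e2]
      have e3 : (1 + k0 / 2) ^ 2 * (1 - (lam a + k0) / (2 + k0)) = (2 - lam a) / (2 - t) := by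
        have h5 : 2 + k0 = 4 / (2 - t) := by field_simp; linarith
        have h6 : 1 + k0 / 2 = 2 / (2 - t) := by
          have : 1 + k0 / 2 = (2 + k0) / 2 := by ring
          rw [this, h5]; field_simp; norm_num
        have h7 : lam a + k0 = lam a + (4 / (2 - t) - 2) := by rw [← h5]; ring
        rw [h6, h5, h7]
        field_simp
        ring
      rw [e3, div_le_iff₀ h2t]
      have := f1 a
      nlinarith
    · have e1 : kap a = -lam a := max_eq_right h
      have e2 : xx a = 0 := max_eq_right (by linarith)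
      rw [e1, e2]
      have := f2 a
      simp only [zero_div, sub_zero, mul_one]
      nlinarith
  have hrnn : ∀ a, 0 ≤ 1 - lam a + g a := by
    intro a
    have := f2 a
    nlinarith [sq_nonneg (1 - lam a / 2)]
  have hga : ∀ a, 2 * kap a / (2 + kap a) * (1 - lam a + g a) ≤ 2 * g a - lam a := by
    intro a
    have hkp : 0 < 2 + kap a := by have := hkap0 a; linarith
    rcases le_total (-lam a) k0 with h | h
    · have e1 : kap a = k0 := max_eq_left h
      have e3 : 2 * kap a / (2 + kap a) = t := by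
        rw [e1, div_eq_iff (by linarith)]
        nlinarith
      rw [e3]
      have := f1 a
      nlinarith
    · have e1 : kap a = -lam a := max_eq_right h
      rw [div_mul_eq_mul_div, div_le_iff₀ hkp, e1]
      have := f2 a
      nlinarith
  have hgnn : ∀ a, 0 ≤ 2 * kap a / (2 + kap a) := by
    intro a
    have := hkap0 a
    have h5 : 0 ≤ kap a := by linarith
    positivity
  set R := ∏ a, (1 - lam a + g a) with hR
  have hR0 : 0 ≤ R := Finset.prod_nonneg (fun a _ => hrnn a)
  obtain ⟨S, hSd⟩ : ∃ S : ℝ, S = t + 2 * K / (2 + K) := ⟨_, rfl⟩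
  have hS0 : 0 < S := by rw [hSd]; positivity
  have hSsum : S ≤ ∑ a, 2 * kap a / (2 + kap a) := by
    rw [← Finset.add_sum_erase univ _ (mem_univ i0), hSd]
    have e3 : 2 * kap i0 / (2 + kap i0) = t := by
      rw [hki0, div_eq_iff (by linarith)]
      nlinarith
    rw [e3]
    have := subadd_sum (univ.erase i0) kap (fun a _ => hk0pos.le.trans (hkap0 a))
    rw [← hK] at this
    linarith
  have hSR : S * R ≤ w := by
    refine le_trans ?_ hS
    calc S * R ≤ (∑ a, 2 * kap a / (2 + kap a)) * R := mul_le_mul_of_nonneg_right hSsum hR0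
      _ = ∑ a, 2 * kap a / (2 + kap a) * R := by rw [Finset.sum_mul]
      _ ≤ _ := by
        apply Finset.sum_le_sum
        intro a _
        have e4 : R = (1 - lam a + g a) * ∏ b ∈ univ.erase a, (1 - lam b + g b) := by
          rw [hR, Finset.mul_prod_erase univ (fun b => 1 - lam b + g b) (mem_univ a)]
        rw [e4, ← mul_assoc]
        exact mul_le_mul_of_nonneg_right (hga a) (Finset.prod_nonneg (fun b _ => hrnn b))
  refine final_step (K := K) ht0 ht (by rw [← hk0]; exact hKk0) hE0 hEw ?_ ?_ ?_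
  · -- (a)
    rw [← hSd]
    nlinarith [mul_nonneg hS0.le (by linarith : 0 ≤ R + w - 1)]
  · -- (b)
    have hF : 0 < Fk K t := by unfold Fk; positivity
    rcases le_total (2 - K - E) 0 with h | h
    · have : Fk K t * (2 - K - E) ≤ 0 := mul_nonpos_of_nonneg_of_nonpos hF.le h
      have : 0 ≤ (2 - t) * w := by positivity
      linarith
    · have hy1 : ∀ a ∈ (univ : Finset ι), xx a / (2 + k0) ≤ 1 := by
        intro a _
        rw [div_le_one (by linarith)]
        have : xx a ≤ X := by
          rw [hX]; exact Finset.single_le_sum (f := xx) (fun a _ => hxx0 a) (mem_univ a)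
        linarith
      have hW := one_sub_sum_le_prod univ (fun a => xx a / (2 + k0))
        (fun a _ => div_nonneg (hxx0 a) (by linarith)) hy1
      rw [← Finset.sum_div, ← hX] at hW
      have hP1 : (1 + k0 / 2) * (1 + K / 2) ≤ ∏ a, (1 + kap a / 2) := by
        rw [← Finset.mul_prod_erase univ (fun a => 1 + kap a / 2) (mem_univ i0), hki0]
        apply mul_le_mul_of_nonneg_left _ (by linarith)
        have := one_add_sum_le_prod (univ.erase i0) (fun a => kap a / 2)
          (fun a _ => by have := hkap0 a; show 0 ≤ kap a / 2; linarith)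
        rw [← Finset.sum_div, ← hK] at this
        exact this
      have hRlow : (1 + k0 / 2) ^ 2 * (1 + K / 2) ^ 2 * (1 - X / (2 + k0)) ≤ R := by
        calc (1 + k0 / 2) ^ 2 * (1 + K / 2) ^ 2 * (1 - X / (2 + k0))
            ≤ (∏ a, (1 + kap a / 2)) ^ 2 * ∏ a, (1 - xx a / (2 + k0)) := by
              have hX1 : 0 ≤ 1 - X / (2 + k0) := by
                rw [sub_nonneg, div_le_one (by linarith)]; linarith
              apply mul_le_mul _ hW hX1 (by positivity)
              rw [← mul_pow]
              exact pow_le_pow_left₀ (by positivity) hP1 2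
          _ = ∏ a, ((1 + kap a / 2) ^ 2 * (1 - xx a / (2 + k0))) := by
              rw [Finset.prod_mul_distrib, Finset.prod_pow]
          _ ≤ R := by
              rw [hR]
              apply Finset.prod_le_prod
              · intro a ha
                have := hy1 a ha
                have h8 : 0 ≤ 1 - xx a / (2 + k0) := by linarith
                positivity
              · intro a _; exact hr a
      have hkey : S * ((1 + k0 / 2) ^ 2 * (1 + K / 2) ^ 2 * (1 - X / (2 + k0))) * (2 - t) =
          Fk K t * (2 - K - E) := by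
        have h5 : 2 + k0 = 4 / (2 - t) := by field_simp; linarith
        have h6 : 1 + k0 / 2 = 2 / (2 - t) := by
          have : 1 + k0 / 2 = (2 + k0) / 2 := by ring
          rw [this, h5]; field_simp; norm_num
        have h7 : X = E + K + (4 / (2 - t) - 2) := by rw [← h5]; linarith
        have h9 : (2 : ℝ) + K ≠ 0 := by linarith
        rw [h6, h5, h7, hSd]
        unfold Fk
        field_simp
        ring
      calc Fk K t * (2 - K - E)
          = S * ((1 + k0 / 2) ^ 2 * (1 + K / 2) ^ 2 * (1 - X / (2 + k0))) * (2 - t) := hkey.symm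
        _ ≤ S * R * (2 - t) := by
            apply mul_le_mul_of_nonneg_right _ h2t.le
            exact mul_le_mul_of_nonneg_left hRlow hS0.le
        _ ≤ w * (2 - t) := mul_le_mul_of_nonneg_right hSR h2t.le
        _ = (2 - t) * w := mul_comm _ _
  · -- (c)
    intro ν hν hνK hνt
    have hcν := hc ν hν hνt
    obtain ⟨β, hβ⟩ : ∃ β : ℝ, β = ν + ν ^ 2 * (1 - t) / (2 - t) := ⟨_, rfl⟩
    have hβ0 : 0 ≤ β := by
      rw [hβ]
      have : 0 ≤ ν ^ 2 * (1 - t) / (2 - t) := by
        apply div_nonneg _ h2t.le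
        exact mul_nonneg (sq_nonneg _) (by linarith)
      linarith
    have hsmall : ∀ a ∈ univ.erase i0, ν * kap a / 2 ≤ 1 := by
      intro a ha
      have : kap a ≤ K := by
        rw [hK]
        exact Finset.single_le_sum (f := kap) (fun a _ => hk0pos.le.trans (hkap0 a)) ha
      nlinarith
    have hk0small : ν * k0 / 2 ≤ 1 := by nlinarith
    have hfac : ∀ a, (1 - ν * kap a / 2) ^ 2 + β * xx a ≤ 1 + ν * lam a + ν ^ 2 * g a := by
      intro a
      rcases le_total (-lam a) k0 with h | h
      · have e1 : kap a = k0 := max_eq_left h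
        have e2 : xx a = lam a + k0 := max_eq_left (by linarith)
        rw [e1, e2]
        have e3 : (1 - ν * k0 / 2) ^ 2 + β * (lam a + k0) =
            1 + ν * lam a + ν ^ 2 * ((t + (1 - t) * lam a) / (2 - t)) := by
          rw [hβ, hk0]
          field_simp
          ring
        rw [e3]
        have h10 : (t + (1 - t) * lam a) / (2 - t) ≤ g a := by
          rw [div_le_iff₀ h2t]; have := f1 a; linarith
        have := mul_le_mul_of_nonneg_left h10 (sq_nonneg ν)
        linarith
      · have e1 : kap a = -lam a := max_eq_right h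
        have e2 : xx a = 0 := max_eq_right (by linarith)
        rw [e1, e2]
        have := f2 a
        nlinarith [mul_nonneg (sq_nonneg ν) (by linarith : 0 ≤ 4 * g a - lam a ^ 2)]
    have hexp := prod_expand (univ.erase i0) (fun a => (1 - ν * kap a / 2) ^ 2) xx
      (β := β) (u0 := (1 - ν * k0 / 2) ^ 2) (x0 := xx i0) hβ0 (hxx0 i0)
      (fun a _ => sq_nonneg _) (fun a ha => by
        have h11 := hsmall a ha
        have h12 := hkap0 a
        show (1 - ν * kap a / 2) ^ 2 ≤ (1 - ν * k0 / 2) ^ 2
        apply pow_le_pow_left₀ (by linarith)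
        nlinarith) (sq_nonneg _) (fun a _ => hxx0 a)
    have hXs : xx i0 + ∑ a ∈ univ.erase i0, xx a = X := by
      rw [hX, Finset.add_sum_erase univ xx (mem_univ i0)]
    rw [hXs] at hexp
    have hprodle : (∏ a ∈ univ.erase i0, ((1 - ν * kap a / 2) ^ 2 + β * xx a)) *
        ((1 - ν * k0 / 2) ^ 2 + β * xx i0) ≤ ∏ a, (1 + ν * lam a + ν ^ 2 * g a) := by
      rw [← hki0, mul_comm, Finset.mul_prod_erase univ
        (fun a => (1 - ν * kap a / 2) ^ 2 + β * xx a) (mem_univ i0)]
      apply Finset.prod_le_prod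
      · intro a _
        have := mul_nonneg hβ0 (hxx0 a)
        have h13 := sq_nonneg (1 - ν * kap a / 2)
        linarith
      · intro a _; exact hfac a
    have hPlow : (1 - ν * K / 2) ^ 2 ≤ ∏ a ∈ univ.erase i0, (1 - ν * kap a / 2) ^ 2 := by
      rw [Finset.prod_pow]
      apply pow_le_pow_left₀ (by linarith)
      have hW := one_sub_sum_le_prod (univ.erase i0) (fun a => ν * kap a / 2)
        (fun a _ => by
          have h14 := hkap0 a
          have h15 : 0 ≤ kap a := by linarith
          show 0 ≤ ν * kap a / 2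
          positivity) hsmall
      have e5 : ∑ a ∈ univ.erase i0, ν * kap a / 2 = ν * K / 2 := by
        rw [← Finset.sum_div, ← Finset.mul_sum, ← hK]
      rw [e5] at hW
      exact hW
    have hpos : 0 ≤ (1 - ν * k0 / 2) ^ 2 + β * X := by
      have : 0 ≤ X := by rw [hX]; exact Finset.sum_nonneg (fun a _ => hxx0 a)
      positivity
    have hfin : (1 - ν * K / 2) ^ 2 * ((1 - ν * k0 / 2) ^ 2 + β * X) ≤ 1 + ν * w :=
      calc _ ≤ (∏ a ∈ univ.erase i0, (1 - ν * kap a / 2) ^ 2) *
          ((1 - ν * k0 / 2) ^ 2 + β * X) := mul_le_mul_of_nonneg_right hPlow hpos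
        _ ≤ _ := hexp
        _ ≤ _ := hprodle
        _ ≤ 1 + ν * w := hcν
    have hkey : (2 - t) * ((1 - ν * K / 2) ^ 2 * ((1 - ν * k0 / 2) ^ 2 + β * X)) - (2 - t) =
        Gk ν K t * E + Hk ν K t := by
      have e6 : X = E + K + k0 := by linarith
      rw [e6, hβ, hk0]
      unfold Gk Hk
      field_simp
      ring
    have := mul_le_mul_of_nonneg_left hfin h2t.le
    nlinarith

end core

end Pool.Agent.K1
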