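import Pool.Agent.K1.Real
import Pool.Agent.HStar.Asm
import Pool.Agent.HStar.Zone

/-!
# Order `k = 1`: the pointwise bound from the two kernel inequalities
-/

set_option autoImplicit false

namespace Pool.Agent.K1

open MeasureTheory Set Filter Topology Complex ComplexConjugate Pool.Agent.HHalf
  Pool.Agent.ConjInterp Function Polynomial Pool.Agent.HStar

theorem omR_eval {N : ℕ} (L : Fin N → ℂ) (u : ℝ) : (omR L).eval u = Wp L u := by
  rw [omR, Polynomial.eval_prod]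
  unfold Wp pq
  refine Finset.prod_congr rfl fun a _ => ?_
  simp

theorem omR_deriv {N : ℕ} (L : Fin N → ℂ) (u : ℝ) : (derivative (omR L)).eval u = dWp L u := by
  have h1 := (omR L).hasDerivAt u
  have h2 := hasDerivAt_Wp L u
  have e : (fun t => (omR L).eval t) = Wp L := by funext t; exact omR_eval L t
  rw [e] at h1
  exact h1.unique h2

theorem om_eval {N : ℕ} (L : Fin N → ℂ) (u : ℝ) : (om (zL L)).eval (u:ℂ) = ((Wp L u : ℝ) : ℂ) := by
  have h := hasse_real L 0 u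
  simp only [hasseDeriv_zero, LinearMap.id_apply] at h
  rw [h, omR_eval]

theorem om_deriv {N : ℕ} (L : Fin N → ℂ) (u : ℝ) :
    (derivative (om (zL L))).eval (u:ℂ) = ((dWp L u : ℝ) : ℂ) := by
  have h := hasse_real L 1 u
  simp only [hasseDeriv_one] at h
  rw [h, omR_deriv]

/-- The pointwise bound of order one from the two kernel inequalities. -/
theorem pw_of_kernels {N : ℕ} (hN : 2 ≤ N) {L : Fin N → ℂ} (hL : ∀ a, ‖L a‖ ≤ 1) {x : ℝ}
    (hx0 : -1 < x) (hx1 : x < 1) (e : Fin (2 * N) ≃ Fin N × Bool)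
    (h1 : ∀ ξ : ℂ, ‖ξ‖ < 1 → Cs (1 - x) * (2 * (KK (zL L ∘ e) x 1 ξ).re) ≤
      2 * (KK (zL L ∘ e) x 0 ξ).re - 1)
    (h2 : ∀ ξ : ℂ, ‖ξ‖ < 1 → -(Cs (1 + x) * (2 * (KK (zL L ∘ e) x 1 ξ).re)) ≤
      2 * (KK (zL L ∘ e) x 0 ξ).re - 1) : PW L 1 x := by
  intro h hh hb
  have hxI : x ∈ Icc (-1:ℝ) 1 := ⟨hx0.le, hx1.le⟩
  obtain ⟨y, hy, hM⟩ := exists_max L 1
  refine ⟨y, hy, ?_⟩
  have hz : ∀ i, ‖(zL L ∘ e) i‖ ≤ 1 := fun i => norm_zL hL (e i)
  have hprod : ∀ w : ℂ, ∏ i, (w - (zL L ∘ e) i) = (om (zL L)).eval w := by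
    intro w
    rw [← om_comp e (zL L), om, Polynomial.eval_prod]
    simp
  have hfun : (fun w : ℂ => (om (zL L)).eval w * h w) =
      fun w => (∏ i, (w - (zL L ∘ e) i)) * h w := by
    funext w; rw [hprod]
  have hxn : ‖(x:ℂ)‖ ≤ 1 := by
    rw [Complex.norm_real, Real.norm_eq_abs]
    exact abs_le.2 ⟨hxI.1, hxI.2⟩
  have hM' : ∀ u ∈ Icc (-1:ℝ) 1, |dWp L u| ≤ |dWp L y| := by
    intro u hu
    have := hM u hu
    simp only [hasseDeriv_one, omR_deriv] at this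
    exact this
  have hC1 := Cs_pos (s := 1 - x) (by linarith)
  have hC2 := Cs_pos (s := 1 + x) (by linarith)
  have hG := G_all hN hL hM' hx0 hx1
  have hfr := zone_frame (z := zL L ∘ e) (x := (x:ℂ)) hz hxn (a := Wp L x) (b := dWp L x)
    (A := Cs (1 - x)) (B := Cs (1 + x)) (M := |dWp L y|) (ρ0 := 0)
    (by rw [om_comp e (zL L)]; exact om_eval L x) (by rw [om_comp e (zL L)]; exact om_deriv L x)
    (Wp_nonneg L x) (hM' x hxI) hC1.le hC2.le (by linarith) zero_lt_one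
    (fun ξ _ hξ => h1 ξ hξ) (fun ξ _ hξ => h2 ξ hξ) hG hh (by rw [← hfun]; exact hb)
  rw [hfun, star_norm]
  refine hfr.trans (le_of_eq ?_)
  simp only [hasseDeriv_one, omR_deriv, Nat.factorial_one, Nat.cast_one, one_mul]

end Pool.Agent.K1
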