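import Mathlib

/-!
# Polynomial inequalities of the polynomial lemma (order `k = 1`)

All of them are proved by their Bernstein coefficients on one box.
Overview: doc `deep/MP_832e94_k1_final`.
-/

set_option autoImplicit false

namespace Pool.Agent.K1

/-- `(1+K/2)(t(1+K/2)+K)`. -/
noncomputable def Fk (K t : ℝ) : ℝ := (1 + K / 2) * (t * (1 + K / 2) + K)

/-- `ν (1-νK/2)^2 (2-t+ν(1-t))`. -/
noncomputable def Gk (ν K t : ℝ) : ℝ := ν * (1 - ν * K / 2) ^ 2 * ((2 - t) + ν * (1 - t))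

/-- The constant term of the secant inequality. -/
noncomputable def Hk (ν K t : ℝ) : ℝ :=
  (1 - ν * K / 2) ^ 2 * ((2 - t) + ν ^ 2 * t + ν * ((2 - t) + ν * (1 - t)) * K) - (2 - t)

/-- The first multiplier. -/
noncomputable def Bk (ν K t : ℝ) : ℝ := (1 + 6 * t + 3 * t ^ 2) * Gk ν K t - (1 - 3 * t ^ 2) * ν * (2 - t)

/-- The final polynomial. -/
noncomputable def Dk (ν K t : ℝ) : ℝ :=
  Bk ν K t * Fk K t * (2 - K) +
    ((1 + 6 * t + 3 * t ^ 2) * Fk K t + (1 - 3 * t ^ 2) * (2 - t)) * Hk ν K t -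
    2 * t * (1 + 3 * t) * (2 - t) * (Gk ν K t + ν * Fk K t)

/-- Range 1 of the secant inequality. -/
theorem Dk1 {K θ : ℝ} (h0 : 0 ≤ K) (h1 : K ≤ (1/4)) (h2 : 0 ≤ θ) (h3 : θ ≤ 1) :
    0 ≤ Dk (5/2) K (θ * K) := by
  have key : ∀ b d : ℝ, b = (1/4) - K → d = 1 - θ →
      Dk (5/2) K (θ * K) = K * (
      409600*b^7*d^4 +
      1310720*b^7*θ*d^3 +
      1474560*b^7*θ^2*d^2 +
      655360*b^7*θ^3*d +
      81920*b^7*θ^4 +
      2457600*K*b^6*d^4 +
      8099840*K*b^6*θ*d^3 +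
      9697280*K*b^6*θ^2*d^2 +
      4925440*K*b^6*θ^3*d +
      870400*K*b^6*θ^4 +
      6190400*K^2*b^5*d^4 +
      20972800*K^2*b^5*θ*d^3 +
      26597760*K^2*b^5*θ^2*d^2 +
      15164160*K^2*b^5*θ^3*d +
      3348800*K^2*b^5*θ^4 +
      8428900*K^3*b^4*d^4 +
      29266360*K^3*b^4*θ*d^3 +
      39155200*K^3*b^4*θ^2*d^2 +
      24782120*K^3*b^4*θ^3*d +
      6447100*K^3*b^4*θ^4 +
      6627600*K^4*b^3*d^4 +
      23466390*K^4*b^3*θ*d^3 +
      33002940*K^4*b^3*θ^2*d^2 +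
      23087060*K^4*b^3*θ^3*d +
      6862190*K^4*b^3*θ^4 +
      2951000*K^5*b^2*d^4 +
      10556530*K^5*b^2*θ*d^3 +
      (249001955/16)*K^5*b^2*θ^2*d^2 +
      (96757415/8)*K^5*b^2*θ^3*d +
      (64956355/16)*K^5*b^2*θ^4 +
      661200*K^6*b*d^4 +
      2339330*K^6*b*θ*d^3 +
      (28881475/8)*K^6*b*θ^2*d^2 +
      (102427485/32)*K^6*b*θ^3*d +
      (39229605/32)*K^6*b*θ^4 +
      51300*K^7*d^4 +
      166510*K^7*θ*d^3 +
      (4325475/16)*K^7*θ^2*d^2 +
      (9766465/32)*K^7*θ^3*d +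
      (36236445/256)*K^7*θ^4) := by
    rintro b d rfl rfl
    unfold Dk Bk Gk Hk Fk
    ring
  have hb : 0 ≤ (1/4) - K := by linarith
  have hd : 0 ≤ 1 - θ := by linarith
  obtain ⟨b, hbe⟩ : ∃ b, b = (1/4) - K := ⟨_, rfl⟩
  obtain ⟨d, hde⟩ : ∃ d, d = 1 - θ := ⟨_, rfl⟩
  rw [← hbe] at hb
  rw [← hde] at hd
  rw [key b d hbe hde]
  positivity

/-- Range 1: the multiplier is nonnegative. -/
theorem Bk1 {K θ : ℝ} (h0 : 0 ≤ K) (h1 : K ≤ (1/4)) (h2 : 0 ≤ θ) (h3 : θ ≤ 1) :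
    0 ≤ Bk (5/2) K (θ * K) := by
  have key : ∀ b d : ℝ, b = (1/4) - K → d = 1 - θ →
      Bk (5/2) K (θ * K) = (
      6400*b^5*d^3 +
      19200*b^5*θ*d^2 +
      19200*b^5*θ^2*d +
      6400*b^5*θ^3 +
      24800*K*b^4*d^3 +
      90080*K*b^4*θ*d^2 +
      105760*K*b^4*θ^2*d +
      40480*K*b^4*θ^3 +
      36325*K^2*b^3*d^3 +
      162295*K^2*b^3*θ*d^2 +
      215375*K^2*b^3*θ^2*d +
      89405*K^2*b^3*θ^3 +
      24175*K^3*b^2*d^3 +
      (559495/4)*K^3*b^2*θ*d^2 +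
      (414505/2)*K^3*b^2*θ^2*d +
      (364055/4)*K^3*b^2*θ^3 +
      6575*K^4*b*d^3 +
      (114365/2)*K^4*b*θ*d^2 +
      (1524845/16)*K^4*b*θ^2*d +
      (702045/16)*K^4*b*θ^3 +
      325*K^5*d^3 +
      (34895/4)*K^5*θ*d^2 +
      (269845/16)*K^5*θ^2*d +
      (521475/64)*K^5*θ^3) := by
    rintro b d rfl rfl
    unfold Bk Gk
    ring
  have hb : 0 ≤ (1/4) - K := by linarith
  have hd : 0 ≤ 1 - θ := by linarith
  obtain ⟨b, hbe⟩ : ∃ b, b = (1/4) - K := ⟨_, rfl⟩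
  obtain ⟨d, hde⟩ : ∃ d, d = 1 - θ := ⟨_, rfl⟩
  rw [← hbe] at hb
  rw [← hde] at hd
  rw [key b d hbe hde]
  positivity

/-- Range 2 of the secant inequality. -/
theorem Dk2 {K θ : ℝ} (h0 : (1/4) ≤ K) (h1 : K ≤ (21/50)) (h2 : 0 ≤ θ) (h3 : θ ≤ 1) :
    0 ≤ Dk (1/2) K (θ * K) := by
  have key : ∀ a b d : ℝ, a = K - (1/4) → b = (21/50) - K → d = 1 - θ →
      Dk (1/2) K (θ * K) = K * (
      (49047851562500/410338673)*b^7*d^4 +
      (85437011718750/410338673)*b^7*θ*d^3 +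
      (806463623046875/6565418768)*b^7*θ^2*d^2 +
      (3666412353515625/13130837536)*b^7*θ^3*d +
      (23077911376953125/105046700288)*b^7*θ^4 +
      (308189453125000/410338673)*a*b^6*d^4 +
      (616387207031250/410338673)*a*b^6*θ*d^3 +
      (2707809326171875/1641354692)*a*b^6*θ^2*d^2 +
      (42989920166015625/13130837536)*a*b^6*θ^3*d +
      (112862785888671875/52523350144)*a*b^6*θ^4 +
      (818894765625000/410338673)*a^2*b^5*d^4 +
      (1874286425781250/410338673)*a^2*b^5*θ*d^3 +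
      (46492798037109375/6565418768)*a^2*b^5*θ^2*d^2 +
      (44530244697265625/3282709384)*a^2*b^5*θ^3*d +
      (215365570126953125/26261675072)*a^2*b^5*θ^4 +
      (1188375925000000/410338673)*a^3*b^4*d^4 +
      (3114107764843750/410338673)*a^3*b^4*θ*d^3 +
      (49017203435546875/3282709384)*a^3*b^4*θ^2*d^2 +
      (93333435037890625/3282709384)*a^3*b^4*θ^3*d +
      (215673786179296875/13130837536)*a^3*b^4*θ^4 +
      (1011670301562500/410338673)*a^4*b^3*d^4 +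
      (3051086002875000/410338673)*a^4*b^3*θ*d^3 +
      (14450924065765625/820677346)*a^4*b^3*θ^2*d^2 +
      (27724288016984375/820677346)*a^4*b^3*θ^3*d +
      (124615113260734375/6565418768)*a^4*b^3*θ^4 +
      (500866096875000/410338673)*a^5*b^2*d^4 +
      (1759844818000000/410338673)*a^5*b^2*θ*d^3 +
      (4875686318139375/410338673)*a^5*b^2*θ^2*d^2 +
      (19007502856416875/820677346)*a^5*b^2*θ^3*d +
      (41955756459330625/3282709384)*a^5*b^2*θ^4 +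
      (131552918750000/410338673)*a^6*b*d^4 +
      (551694718000000/410338673)*a^6*b*θ*d^3 +
      (1763475022981875/410338673)*a^6*b*θ^2*d^2 +
      (3514967233739150/410338673)*a^6*b*θ^3*d +
      (7667202253500175/1641354692)*a^6*b*θ^4 +
      (13734362500000/410338673)*a^7*d^4 +
      (72164368500000/410338673)*a^7*θ*d^3 +
      (265351830498750/410338673)*a^7*θ^2*d^2 +
      (544101402304150/410338673)*a^7*θ^3*d +
      (588928666336593/820677346)*a^7*θ^4) := by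
    rintro a b d rfl rfl rfl
    unfold Dk Bk Gk Hk Fk
    ring
  have ha : 0 ≤ K - (1/4) := by linarith
  have hb : 0 ≤ (21/50) - K := by linarith
  have hd : 0 ≤ 1 - θ := by linarith
  obtain ⟨b, hbe⟩ : ∃ b, b = (21/50) - K := ⟨_, rfl⟩
  obtain ⟨d, hde⟩ : ∃ d, d = 1 - θ := ⟨_, rfl⟩
  obtain ⟨a, hae⟩ : ∃ a, a = K - (1/4) := ⟨_, rfl⟩
  rw [← hbe] at hb
  rw [← hde] at hd
  rw [← hae] at ha
  rw [key a b d hae hbe hde]
  positivity

/-- Range 2: the multiplier is nonnegative. -/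
theorem Bk2 {K θ : ℝ} (h0 : (1/4) ≤ K) (h1 : K ≤ (21/50)) (h2 : 0 ≤ θ) (h3 : θ ≤ 1) :
    0 ≤ Bk (1/2) K (θ * K) := by
  have key : ∀ a b d : ℝ, a = K - (1/4) → b = (21/50) - K → d = 1 - θ →
      Bk (1/2) K (θ * K) = (
      (986328125/1419857)*b^5*d^3 +
      (76162109375/5679428)*b^5*θ*d^2 +
      (585361328125/22717712)*b^5*θ^2*d +
      (1151201171875/90870848)*b^5*θ^3 +
      (3935546875/1419857)*a*b^4*d^3 +
      (101805078125/1419857)*a*b^4*θ*d^2 +
      (3218330078125/22717712)*a*b^4*θ^2*d +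
      (3183322265625/45435424)*a*b^4*θ^3 +
      (5901484375/1419857)*a^2*b^3*d^3 +
      (863995359375/5679428)*a^2*b^3*θ*d^2 +
      (875516015625/2839714)*a^2*b^3*θ^2*d +
      (1737663640625/11358856)*a^2*b^3*θ^3 +
      (3954453125/1419857)*a^3*b^2*d^3 +
      (455184101875/2839714)*a^3*b^2*θ*d^2 +
      (944617296875/2839714)*a^3*b^2*θ^2*d +
      (938118746875/5679428)*a^3*b^2*θ^3 +
      (1015000000/1419857)*a^4*b*d^3 +
      (119205258125/1419857)*a^4*b*θ*d^2 +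
      (252999986425/1419857)*a^4*b*θ^2*d +
      (501682945275/5679428)*a^4*b*θ^3 +
      (12812500/1419857)*a^5*d^3 +
      (24847496250/1419857)*a^5*θ*d^2 +
      (53888798925/1419857)*a^5*θ^2*d +
      (53215005041/2839714)*a^5*θ^3) := by
    rintro a b d rfl rfl rfl
    unfold Bk Gk
    ring
  have ha : 0 ≤ K - (1/4) := by linarith
  have hb : 0 ≤ (21/50) - K := by linarith
  have hd : 0 ≤ 1 - θ := by linarith
  obtain ⟨b, hbe⟩ : ∃ b, b = (21/50) - K := ⟨_, rfl⟩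
  obtain ⟨d, hde⟩ : ∃ d, d = 1 - θ := ⟨_, rfl⟩
  obtain ⟨a, hae⟩ : ∃ a, a = K - (1/4) := ⟨_, rfl⟩
  rw [← hbe] at hb
  rw [← hde] at hd
  rw [← hae] at ha
  rw [key a b d hae hbe hde]
  positivity

/-- Range 3 of the secant inequality. -/
theorem Dk3 {K θ : ℝ} (h0 : (21/50) ≤ K) (h1 : K ≤ (91/200)) (h2 : 0 ≤ θ) (h3 : θ ≤ 1) :
    0 ≤ Dk (1/4) K (θ * K) := by
  have key : ∀ a b d : ℝ, a = K - (21/50) → b = (91/200) - K → d = 1 - θ →
      Dk (1/4) K (θ * K) = K * (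
      (703572500000000/823543)*b^7*d^4 +
      (3071860900000000/823543)*b^7*θ*d^3 +
      (13168555005750000/823543)*b^7*θ^2*d^2 +
      (31159544987150000/823543)*b^7*θ^3*d +
      (2519721504055900/117649)*b^7*θ^4 +
      (672409375000000/117649)*a*b^6*d^4 +
      (3165167650000000/117649)*a*b^6*θ*d^3 +
      (1956320700312500/16807)*a*b^6*θ^2*d^2 +
      (32027003470580000/117649)*a*b^6*θ^3*d +
      (18016608798792675/117649)*a*b^6*θ^4 +
      (1923641406250000/117649)*a^2*b^5*d^4 +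
      (9765794525000000/117649)*a^2*b^5*θ*d^3 +
      (42623014113281250/117649)*a^2*b^5*θ^2*d^2 +
      (98641583569745625/117649)*a^2*b^5*θ^3*d +
      (220662311998154575/470596)*a^2*b^5*θ^4 +
      (3049930820312500/117649)*a^3*b^4*d^4 +
      (16710629003125000/117649)*a^3*b^4*θ*d^3 +
      (147086538963921875/235298)*a^3*b^4*θ^2*d^2 +
      (168598861928603125/117649)*a^3*b^4*θ^3*d +
      (1500289759021471875/1882384)*a^3*b^4*θ^4 +
      (2893634218750000/117649)*a^4*b^3*d^4 +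
      (17128619664453125/117649)*a^4*b^3*θ*d^3 +
      (1215760909299578125/1882384)*a^4*b^3*θ^2*d^2 +
      (2763551197714609375/1882384)*a^4*b^3*θ^3*d +
      (6115749951704456125/7529536)*a^4*b^3*θ^4 +
      (1642308671875000/117649)*a^5*b^2*d^4 +
      (1502585453515625/16807)*a^5*b^2*θ*d^3 +
      (3009131918438609375/7529536)*a^5*b^2*θ^2*d^2 +
      (848496773269559375/941192)*a^5*b^2*θ^3*d +
      (14947307326702986225/30118144)*a^5*b^2*θ^4 +
      (516114687500000/117649)*a^6*b*d^4 +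
      (3583025743359375/117649)*a^6*b*θ*d^3 +
      (516323959243140625/3764768)*a^6*b*θ^2*d^2 +
      (9253977458634716875/30118144)*a^6*b*θ^3*d +
      (20281560603418376925/120472576)*a^6*b*θ^4 +
      (484762617187500/823543)*a^7*d^4 +
      (3656676635546875/823543)*a^7*θ*d^3 +
      (1061408859741390625/52706752)*a^7*θ^2*d^2 +
      (9453309620456368125/210827008)*a^7*θ^3*d +
      (11786100912873750825/481890304)*a^7*θ^4) := by
    rintro a b d rfl rfl rfl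
    unfold Dk Bk Gk Hk Fk
    ring
  have ha : 0 ≤ K - (21/50) := by linarith
  have hb : 0 ≤ (91/200) - K := by linarith
  have hd : 0 ≤ 1 - θ := by linarith
  obtain ⟨b, hbe⟩ : ∃ b, b = (91/200) - K := ⟨_, rfl⟩
  obtain ⟨d, hde⟩ : ∃ d, d = 1 - θ := ⟨_, rfl⟩
  obtain ⟨a, hae⟩ : ∃ a, a = K - (21/50) := ⟨_, rfl⟩
  rw [← hbe] at hb
  rw [← hde] at hd
  rw [← hae] at ha
  rw [key a b d hae hbe hde]
  positivity

/-- Range 3: the multiplier is nonnegative. -/
theorem Bk3 {K θ : ℝ} (h0 : (21/50) ≤ K) (h1 : K ≤ (91/200)) (h2 : 0 ≤ θ) (h3 : θ ≤ 1) :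
    0 ≤ Bk (1/4) K (θ * K) := by
  have key : ∀ a b d : ℝ, a = K - (21/50) → b = (91/200) - K → d = 1 - θ →
      Bk (1/4) K (θ * K) = (
      (1596125000/16807)*b^5*d^3 +
      (407904847500/16807)*b^5*θ*d^2 +
      (886191467850/16807)*b^5*θ^2*d +
      (442147735835/16807)*b^5*θ^3 +
      (6488312500/16807)*a*b^4*d^3 +
      (2065227918125/16807)*a*b^4*θ*d^2 +
      (4499457743950/16807)*a*b^4*θ^2*d +
      (8971174436475/67228)*a*b^4*θ^3 +
      (19990890625/33614)*a^2*b^3*d^3 +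
      (16726388173125/67228)*a^2*b^3*θ*d^2 +
      (36543640359675/67228)*a^2*b^3*θ^2*d +
      (36393759732025/134456)*a^2*b^3*θ^3 +
      (14035421875/33614)*a^3*b^2*d^3 +
      (67719564041875/268912)*a^3*b^2*θ*d^2 +
      (9272900373200/16807)*a^3*b^2*θ^2*d +
      (147595479375825/537824)*a^3*b^2*θ^3 +
      (4043421875/33614)*a^4*b*d^3 +
      (17132334483125/134456)*a^4*b*θ*d^2 +
      (602232846308725/2151296)*a^4*b*θ^2*d +
      (598398314277875/4302592)*a^4*b*θ^3 +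
      (214515625/33614)*a^5*d^3 +
      (6933488486875/268912)*a^5*θ*d^2 +
      (122200006707925/2151296)*a^5*θ^2*d +
      (485077788289635/17210368)*a^5*θ^3) := by
    rintro a b d rfl rfl rfl
    unfold Bk Gk
    ring
  have ha : 0 ≤ K - (21/50) := by linarith
  have hb : 0 ≤ (91/200) - K := by linarith
  have hd : 0 ≤ 1 - θ := by linarith
  obtain ⟨b, hbe⟩ : ∃ b, b = (91/200) - K := ⟨_, rfl⟩
  obtain ⟨d, hde⟩ : ∃ d, d = 1 - θ := ⟨_, rfl⟩
  obtain ⟨a, hae⟩ : ∃ a, a = K - (21/50) := ⟨_, rfl⟩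
  rw [← hbe] at hb
  rw [← hde] at hd
  rw [← hae] at ha
  rw [key a b d hae hbe hde]
  positivity

/-- The range where the endpoint inequality alone is enough. -/
theorem bonly {K t : ℝ} (h0 : (91/200) ≤ K) (h1 : K ≤ (23/20)) (h2 : 0 ≤ t) (h3 : t ≤ (2/5)) :
    0 ≤ Fk K t * (3 * (1 + t) * (2 - K) - (1 + 3 * t)) - (2 - t) * (1 + 3 * t) := by
  have key : ∀ a b d : ℝ, a = K - (91/200) → b = (23/20) - K → d = (2/5) - t →
      Fk K t * (3 * (1 + t) * (2 - K) - (1 + 3 * t)) - (2 - t) * (1 + 3 * t) = (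
      (12077175/21484952)*b^3*d^2 +
      (246590655/21484952)*b^3*t*d +
      (292090227/10742476)*b^3*t^2 +
      (520376625/10742476)*a*b^2*d^2 +
      (1410274225/10742476)*a*b^2*t*d +
      (679251065/5371238)*a*b^2*t^2 +
      (388268125/5371238)*a^2*b*d^2 +
      (857097125/5371238)*a^2*b*t*d +
      (324941225/2685619)*a^2*b*t^2 +
      (40371875/2685619)*a^3*d^2 +
      (41341875/2685619)*a^3*t*d +
      (16039750/2685619)*a^3*t^2) := by
    rintro a b d rfl rfl rfl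
    unfold Fk
    ring
  have ha : 0 ≤ K - (91/200) := by linarith
  have hb : 0 ≤ (23/20) - K := by linarith
  have hd : 0 ≤ (2/5) - t := by linarith
  obtain ⟨b, hbe⟩ : ∃ b, b = (23/20) - K := ⟨_, rfl⟩
  obtain ⟨d, hde⟩ : ∃ d, d = (2/5) - t := ⟨_, rfl⟩
  obtain ⟨a, hae⟩ : ∃ a, a = K - (91/200) := ⟨_, rfl⟩
  rw [← hbe] at hb
  rw [← hde] at hd
  rw [← hae] at ha
  rw [key a b d hae hbe hde]
  positivity

end Pool.Agent.K1
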