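import Mathlib

/-!
# Polynomial inequalities of the kernel bound (order `k = 1`)

All of them are proved by their Bernstein coefficients on one box.
Overview: doc `deep/MP_832e94_k1_final`.
-/

set_option autoImplicit false

namespace Pool.Agent.K1

/-- Upper bound of `4 φ(y)`. -/
noncomputable def TT (y : ℝ) : ℝ := 2 + 2 / 3 * y + 1 / 3 * y ^ 2 + 1 / 5 * y ^ 3 + 4 / 5 * y ^ 4

/-- Numerator of the lower bound of `4 ψ`. -/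
noncomputable def NN (ρ s : ℝ) : ℝ := 30 * s ^ 2 + 35 * ρ * s + 8 * ρ ^ 2

/-- Denominator of the lower bound of `4 ψ`. -/
noncomputable def DD (ρ s : ℝ) : ℝ := 20 * s ^ 3 + 30 * ρ * s ^ 2 + 12 * ρ ^ 2 * s + ρ ^ 3

/-- Left inequality, `s ≤ 2/5`. -/
theorem EL1 {y s : ℝ} (h0 : (1/2) ≤ y) (h1 : y ≤ 1) (h2 : 0 ≤ s) (h3 : s ≤ (2/5)) :
    0 ≤ ((3 * (1 + s) - (1 + 3 * s)) * (4 - s) - (3 * (1 + s) - y * (1 + 3 * s)) * (TT y - s)) := by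
  have key : ∀ a b d : ℝ, a = y - (1/2) → b = 1 - y → d = (2/5) - s →
      ((3 * (1 + s) - (1 + 3 * s)) * (4 - s) - (3 * (1 + s) - y * (1 + 3 * s)) * (TT y - s)) = (1 - y) * (
      (2125/6)*b^4*d^2 +
      (1348/3)*b^4*s*d +
      (859/6)*b^4*s^2 +
      (3265/2)*a*b^3*d^2 +
      2136*a*b^3*s*d +
      (1391/2)*a*b^3*s^2 +
      (8510/3)*a^2*b^2*d^2 +
      (11356/3)*a^2*b^2*s*d +
      (3710/3)*a^2*b^2*s^2 +
      2190*a^3*b*d^2 +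
      2928*a^3*b*s*d +
      930*a^3*b*s^2 +
      (1880/3)*a^4*d^2 +
      (2440/3)*a^4*s*d +
      (704/3)*a^4*s^2) := by
    rintro a b d rfl rfl rfl
    unfold TT
    ring
  have ha : 0 ≤ y - (1/2) := by linarith
  have hb : 0 ≤ 1 - y := by linarith
  have hd : 0 ≤ (2/5) - s := by linarith
  obtain ⟨b, hbe⟩ : ∃ b, b = 1 - y := ⟨_, rfl⟩
  obtain ⟨d, hde⟩ : ∃ d, d = (2/5) - s := ⟨_, rfl⟩
  obtain ⟨a, hae⟩ : ∃ a, a = y - (1/2) := ⟨_, rfl⟩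
  rw [← hbe] at hb
  rw [← hde] at hd
  rw [← hae] at ha
  rw [key a b d hae hbe hde]
  positivity

/-- Left inequality, `2/5 ≤ s ≤ 1`. -/
theorem EL2 {y s : ℝ} (h0 : (1/2) ≤ y) (h1 : y ≤ 1) (h2 : (2/5) ≤ s) (h3 : s ≤ 1) :
    0 ≤ (127 / 100 - (1 / 3 + s - s * y) * (TT y - s)) := by
  have key : ∀ a b c d : ℝ, a = y - (1/2) → b = 1 - y → c = s - (2/5) → d = 1 - s →
      (127 / 100 - (1 / 3 + s - s * y) * (TT y - s)) = (
      (1112/81)*b^5*d^2 +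
      (10/81)*b^5*c*d +
      (194/81)*b^5*c^2 +
      (5596/81)*a*b^4*d^2 +
      (2102/81)*a*b^4*c*d +
      (1690/81)*a*b^4*c^2 +
      (1180/9)*a^2*b^3*d^2 +
      (856/9)*a^2*b^3*c*d +
      60*a^2*b^3*c^2 +
      (9200/81)*a^3*b^2*d^2 +
      (10696/81)*a^3*b^2*c*d +
      (6680/81)*a^3*b^2*c^2 +
      (3496/81)*a^4*b*d^2 +
      (7280/81)*a^4*b*c*d +
      (5080/81)*a^4*b*c^2 +
      (56/9)*a^5*d^2 +
      (272/9)*a^5*c*d +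
      24*a^5*c^2) := by
    rintro a b c d rfl rfl rfl rfl
    unfold TT
    ring
  have ha : 0 ≤ y - (1/2) := by linarith
  have hb : 0 ≤ 1 - y := by linarith
  have hc : 0 ≤ s - (2/5) := by linarith
  have hd : 0 ≤ 1 - s := by linarith
  obtain ⟨b, hbe⟩ : ∃ b, b = 1 - y := ⟨_, rfl⟩
  obtain ⟨d, hde⟩ : ∃ d, d = 1 - s := ⟨_, rfl⟩
  obtain ⟨a, hae⟩ : ∃ a, a = y - (1/2) := ⟨_, rfl⟩
  obtain ⟨c, hce⟩ : ∃ c, c = s - (2/5) := ⟨_, rfl⟩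
  rw [← hbe] at hb
  rw [← hde] at hd
  rw [← hae] at ha
  rw [← hce] at hc
  rw [key a b c d hae hbe hce hde]
  positivity

/-- Left inequality, `1 ≤ s ≤ 8/5`. -/
theorem EL3 {y s : ℝ} (h0 : (1/2) ≤ y) (h1 : y ≤ 1) (h2 : 1 ≤ s) (h3 : s ≤ (8/5)) :
    0 ≤ (67 / 20 - 21 / 10 * s - (7 / 3 - s - s * y) * (TT y - s)) := by
  have key : ∀ a b c d : ℝ, a = y - (1/2) → b = 1 - y → c = s - 1 → d = (8/5) - s →
      (67 / 20 - 21 / 10 * s - (7 / 3 - s - s * y) * (TT y - s)) = (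
      (50/81)*b^5*d^2 +
      (4294/81)*b^5*c*d +
      (356/81)*b^5*c^2 +
      (970/81)*a*b^4*d^2 +
      (28994/81)*a*b^4*c*d +
      (7288/81)*a*b^4*c^2 +
      (380/9)*a^2*b^3*d^2 +
      960*a^2*b^3*c*d +
      (3364/9)*a^2*b^3*c^2 +
      (5240/81)*a^3*b^2*d^2 +
      (105304/81)*a^3*b^2*c*d +
      (53408/81)*a^3*b^2*c^2 +
      (4360/81)*a^4*b*d^2 +
      (73664/81)*a^4*b*c*d +
      (44680/81)*a^4*b*c^2 +
      (200/9)*a^5*d^2 +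
      (2432/9)*a^5*c*d +
      184*a^5*c^2) := by
    rintro a b c d rfl rfl rfl rfl
    unfold TT
    ring
  have ha : 0 ≤ y - (1/2) := by linarith
  have hb : 0 ≤ 1 - y := by linarith
  have hc : 0 ≤ s - 1 := by linarith
  have hd : 0 ≤ (8/5) - s := by linarith
  obtain ⟨b, hbe⟩ : ∃ b, b = 1 - y := ⟨_, rfl⟩
  obtain ⟨d, hde⟩ : ∃ d, d = (8/5) - s := ⟨_, rfl⟩
  obtain ⟨a, hae⟩ : ∃ a, a = y - (1/2) := ⟨_, rfl⟩
  obtain ⟨c, hce⟩ : ∃ c, c = s - 1 := ⟨_, rfl⟩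
  rw [← hbe] at hb
  rw [← hde] at hd
  rw [← hae] at ha
  rw [← hce] at hc
  rw [key a b c d hae hbe hce hde]
  positivity

/-- Left inequality, `s = 2 - t`, `t ≤ 2/5`. -/
theorem EL4 {y t : ℝ} (h0 : (1/2) ≤ y) (h1 : y ≤ 1) (h2 : 0 ≤ t) (h3 : t ≤ (2/5)) :
    0 ≤ (t / 2 * (3 / 4 + t) - (1 - (2 - t) * y) * (TT y - (2 - t))) := by
  have key : ∀ a b d : ℝ, a = y - (1/2) → b = 1 - y → d = (2/5) - t →
      (t / 2 * (3 / 4 + t) - (1 - (2 - t) * y) * (TT y - (2 - t))) = (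
      (31/3)*b^5*t*d +
      (31/3)*b^5*t^2 +
      (295/3)*a*b^4*d^2 +
      (833/3)*a*b^4*t*d +
      (490/3)*a*b^4*t^2 +
      (1645/3)*a^2*b^3*d^2 +
      1268*a^2*b^3*t*d +
      (1967/3)*a^2*b^3*t^2 +
      (3440/3)*a^3*b^2*d^2 +
      (7192/3)*a^3*b^2*t*d +
      (3464/3)*a^3*b^2*t^2 +
      (3260/3)*a^4*b*d^2 +
      (6386/3)*a^4*b*t*d +
      978*a^4*b*t^2 +
      400*a^5*d^2 +
      750*a^5*t*d +
      334*a^5*t^2) := by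
    rintro a b d rfl rfl rfl
    unfold TT
    ring
  have ha : 0 ≤ y - (1/2) := by linarith
  have hb : 0 ≤ 1 - y := by linarith
  have hd : 0 ≤ (2/5) - t := by linarith
  obtain ⟨b, hbe⟩ : ∃ b, b = 1 - y := ⟨_, rfl⟩
  obtain ⟨d, hde⟩ : ∃ d, d = (2/5) - t := ⟨_, rfl⟩
  obtain ⟨a, hae⟩ : ∃ a, a = y - (1/2) := ⟨_, rfl⟩
  rw [← hbe] at hb
  rw [← hde] at hd
  rw [← hae] at ha
  rw [key a b d hae hbe hde]
  positivity

/-- Right inequality, `s ≤ 2/5`. -/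
theorem ER1 {u s : ℝ} (h0 : 0 ≤ u) (h1 : u ≤ 1) (h2 : 0 ≤ s) (h3 : s ≤ (2/5)) :
    0 ≤ ((3 * s * (1 + s) + ((1 - s / 2) * (1 + u)) * (1 + 3 * s)) * (4 * NN ((1 - s / 2) * (1 + u)) s - 3 * DD ((1 - s / 2) * (1 + u)) s) - 6 * (4 - s) * DD ((1 - s / 2) * (1 + u)) s) := by
  have key : ∀ b d : ℝ, b = 1 - u → d = (2/5) - s →
      ((3 * s * (1 + s) + ((1 - s / 2) * (1 + u)) * (1 + 3 * s)) * (4 * NN ((1 - s / 2) * (1 + u)) s - 3 * DD ((1 - s / 2) * (1 + u)) s) - 6 * (4 - s) * DD ((1 - s / 2) * (1 + u)) s) = (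
      (15625/32)*b^4*d^5 +
      (65625/32)*b^4*s*d^4 +
      (72875/16)*b^4*s^2*d^3 +
      (25575/4)*b^4*s^3*d^2 +
      4685*b^4*s^4*d +
      1248*b^4*s^5 +
      3125*u*b^3*d^5 +
      (236875/16)*u*b^3*s*d^4 +
      (568625/16)*u*b^3*s^2*d^3 +
      (192625/4)*u*b^3*s^3*d^2 +
      32285*u*b^3*s^4*d +
      7924*u*b^3*s^5 +
      (28125/4)*u^2*b^2*d^5 +
      (300625/8)*u^2*b^2*s*d^4 +
      (754125/8)*u^2*b^2*s^2*d^3 +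
      122825*u^2*b^2*s^3*d^2 +
      76740*u^2*b^2*s^4*d +
      17600*u^2*b^2*s^5 +
      6250*u^3*b*d^5 +
      (153125/4)*u^3*b*s*d^4 +
      (396625/4)*u^3*b*s^2*d^3 +
      (249925/2)*u^3*b*s^3*d^2 +
      73810*u^3*b*s^4*d +
      15968*u^3*b*s^5 +
      (3125/2)*u^4*d^5 +
      11875*u^4*s*d^4 +
      (65375/2)*u^4*s^2*d^3 +
      40825*u^4*s^3*d^2 +
      23230*u^4*s^4*d +
      4780*u^4*s^5) := by
    rintro b d rfl rfl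
    unfold NN DD
    ring
  have hb : 0 ≤ 1 - u := by linarith
  have hd : 0 ≤ (2/5) - s := by linarith
  obtain ⟨b, hbe⟩ : ∃ b, b = 1 - u := ⟨_, rfl⟩
  obtain ⟨d, hde⟩ : ∃ d, d = (2/5) - s := ⟨_, rfl⟩
  rw [← hbe] at hb
  rw [← hde] at hd
  rw [key b d hbe hde]
  positivity

/-- Right inequality, `2/5 ≤ s ≤ 1`. -/
theorem ER2 {u s : ℝ} (h0 : 0 ≤ u) (h1 : u ≤ 1) (h2 : (2/5) ≤ s) (h3 : s ≤ 1) :
    0 ≤ ((1 / 3 + s + ((1 - s / 2) * (1 + u))) * (4 * s * NN ((1 - s / 2) * (1 + u)) s - 3 * s * DD ((1 - s / 2) * (1 + u)) s) - 3 * (127 / 100) * DD ((1 - s / 2) * (1 + u)) s) := by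
  have key : ∀ b c d : ℝ, b = 1 - u → c = s - (2/5) → d = 1 - s →
      ((1 / 3 + s + ((1 - s / 2) * (1 + u))) * (4 * s * NN ((1 - s / 2) * (1 + u)) s - 3 * s * DD ((1 - s / 2) * (1 + u)) s) - 3 * (127 / 100) * DD ((1 - s / 2) * (1 + u)) s) = (
      (8240/243)*b^4*d^5 +
      (10919/27)*b^4*c*d^4 +
      (1336327/972)*b^4*c^2*d^3 +
      (14602495/7776)*b^4*c^3*d^2 +
      (1281725/1296)*b^4*c^4*d +
      (805625/7776)*b^4*c^5 +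
      (156904/729)*u*b^3*d^5 +
      (1712057/729)*u*b^3*c*d^4 +
      (21648589/2916)*u*b^3*c^2*d^3 +
      (219863555/23328)*u*b^3*c^3*d^2 +
      (53374625/11664)*u*b^3*c^4*d +
      (9810875/23328)*u*b^3*c^5 +
      (349672/729)*u^2*b^2*d^5 +
      (3564959/729)*u^2*b^2*c*d^4 +
      (10528072/729)*u^2*b^2*c^2*d^3 +
      (198961165/11664)*u^2*b^2*c^3*d^2 +
      (44340475/5832)*u^2*b^2*c^4*d +
      (6593125/11664)*u^2*b^2*c^5 +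
      (320360/729)*u^3*b*d^5 +
      (3123973/729)*u^3*b*c*d^4 +
      (8668034/729)*u^3*b*c^2*d^3 +
      (76240795/5832)*u^3*b*c^3*d^2 +
      (15409525/2916)*u^3*b*c^4*d +
      (1484875/5832)*u^3*b*c^5 +
      (98264/729)*u^4*d^5 +
      (953218/729)*u^4*c*d^4 +
      (2510264/729)*u^4*c^2*d^3 +
      (10261115/2916)*u^4*c^3*d^2 +
      (1825625/1458)*u^4*c^4*d +
      (11375/2916)*u^4*c^5) := by
    rintro b c d rfl rfl rfl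
    unfold NN DD
    ring
  have hb : 0 ≤ 1 - u := by linarith
  have hc : 0 ≤ s - (2/5) := by linarith
  have hd : 0 ≤ 1 - s := by linarith
  obtain ⟨b, hbe⟩ : ∃ b, b = 1 - u := ⟨_, rfl⟩
  obtain ⟨d, hde⟩ : ∃ d, d = 1 - s := ⟨_, rfl⟩
  obtain ⟨c, hce⟩ : ∃ c, c = s - (2/5) := ⟨_, rfl⟩
  rw [← hbe] at hb
  rw [← hde] at hd
  rw [← hce] at hc
  rw [key b c d hbe hce hde]
  positivity

/-- Right inequality, `1 ≤ s ≤ 8/5`. -/
theorem ER3 {u s : ℝ} (h0 : 0 ≤ u) (h1 : u ≤ 1) (h2 : 1 ≤ s) (h3 : s ≤ (8/5)) :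
    0 ≤ ((7 / 3 - s + ((1 - s / 2) * (1 + u))) * (4 * s * NN ((1 - s / 2) * (1 + u)) s - 3 * s * DD ((1 - s / 2) * (1 + u)) s) - 3 * (67 / 20 - 21 / 10 * s) * DD ((1 - s / 2) * (1 + u)) s) := by
  have key : ∀ b c d : ℝ, b = 1 - u → c = s - 1 → d = (8/5) - s →
      ((7 / 3 - s + ((1 - s / 2) * (1 + u))) * (4 * s * NN ((1 - s / 2) * (1 + u)) s - 3 * s * DD ((1 - s / 2) * (1 + u)) s) - 3 * (67 / 20 - 21 / 10 * s) * DD ((1 - s / 2) * (1 + u)) s) = (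
      (1034375/7776)*b^4*d^5 +
      (3071875/3888)*b^4*c*d^4 +
      (1754075/864)*b^4*c^2*d^3 +
      (12120445/3888)*b^4*c^3*d^2 +
      (5602397/1944)*b^4*c^4*d +
      (380065/324)*b^4*c^5 +
      (12940625/23328)*u*b^3*d^5 +
      (39533375/11664)*u*b^3*c*d^4 +
      (206252375/23328)*u*b^3*c^2*d^3 +
      (158265505/11664)*u*b^3*c^3*d^2 +
      (71892289/5832)*u*b^3*c^4*d +
      (14220319/2916)*u*b^3*c^5 +
      (9259375/11664)*u^2*b^2*d^5 +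
      (29618125/5832)*u^2*b^2*c*d^4 +
      (159433225/11664)*u^2*b^2*c^2*d^3 +
      (124771115/5832)*u^2*b^2*c^3*d^2 +
      (56709899/2916)*u^2*b^2*c^4*d +
      (11018081/1458)*u^2*b^2*c^5 +
      (2490625/5832)*u^3*b*d^5 +
      (8819875/2916)*u^3*b*c*d^4 +
      (50937775/5832)*u^3*b*c^2*d^3 +
      (42029645/2916)*u^3*b*c^3*d^2 +
      (19535099/1458)*u^3*b*c^4*d +
      (3769805/729)*u^3*b*c^5 +
      (153125/2916)*u^4*d^5 +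
      (783875/1458)*u^4*c*d^4 +
      (5447375/2916)*u^4*c^2*d^3 +
      (5053765/1458)*u^4*c^3*d^2 +
      (2474947/729)*u^4*c^4*d +
      (960626/729)*u^4*c^5) := by
    rintro b c d rfl rfl rfl
    unfold NN DD
    ring
  have hb : 0 ≤ 1 - u := by linarith
  have hc : 0 ≤ s - 1 := by linarith
  have hd : 0 ≤ (8/5) - s := by linarith
  obtain ⟨b, hbe⟩ : ∃ b, b = 1 - u := ⟨_, rfl⟩
  obtain ⟨d, hde⟩ : ∃ d, d = (8/5) - s := ⟨_, rfl⟩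
  obtain ⟨c, hce⟩ : ∃ c, c = s - 1 := ⟨_, rfl⟩
  rw [← hbe] at hb
  rw [← hde] at hd
  rw [← hce] at hc
  rw [key b c d hbe hce hde]
  positivity

/-- Right inequality, `s = 2 - t`, `t ≤ 2/5`. -/
theorem ER4 {u t : ℝ} (h0 : 0 ≤ u) (h1 : u ≤ 1) (h2 : 0 ≤ t) (h3 : t ≤ (2/5)) :
    0 ≤ ((1 + (t / 2 * (1 + u))) * (4 * (2 - t) * NN (t / 2 * (1 + u)) (2 - t) - 3 * (2 - t) * DD (t / 2 * (1 + u)) (2 - t)) - 3 * (t / 2 * (3 / 4 + t)) * DD (t / 2 * (1 + u)) (2 - t)) := by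
  have key : ∀ b d : ℝ, b = 1 - u → d = (2/5) - t →
      ((1 + (t / 2 * (1 + u))) * (4 * (2 - t) * NN (t / 2 * (1 + u)) (2 - t) - 3 * (2 - t) * DD (t / 2 * (1 + u)) (2 - t)) - 3 * (t / 2 * (3 / 4 + t)) * DD (t / 2 * (1 + u)) (2 - t)) = t * (
      (34375/4)*b^4*d^4 +
      (470625/16)*b^4*t*d^3 +
      (601175/16)*b^4*t^2*d^2 +
      (2717355/128)*b^4*t^3*d +
      (572955/128)*b^4*t^4 +
      31250*u*b^3*d^4 +
      (1760625/16)*u*b^3*t*d^3 +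
      (1153925/8)*u*b^3*t^2*d^2 +
      (10680045/128)*u*b^3*t^3*d +
      (2300733/128)*u*b^3*t^4 +
      (84375/2)*u^2*b^2*d^4 +
      (2443125/16)*u^2*b^2*t*d^3 +
      (410425/2)*u^2*b^2*t^2*d^2 +
      (7771335/64)*u^2*b^2*t^3*d +
      (1708867/64)*u^2*b^2*t^4 +
      25000*u^3*b*d^4 +
      (1486875/16)*u^3*b*t*d^3 +
      (2046875/16)*u^3*b*t^2*d^2 +
      (2475375/32)*u^3*b*t^3*d +
      (555015/32)*u^3*b*t^4 +
      (21875/4)*u^4*d^4 +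
      (166875/8)*u^4*t*d^3 +
      (235075/8)*u^4*t^2*d^2 +
      (290175/16)*u^4*t^3*d +
      (66251/16)*u^4*t^4) := by
    rintro b d rfl rfl
    unfold NN DD
    ring
  have hb : 0 ≤ 1 - u := by linarith
  have hd : 0 ≤ (2/5) - t := by linarith
  obtain ⟨b, hbe⟩ : ∃ b, b = 1 - u := ⟨_, rfl⟩
  obtain ⟨d, hde⟩ : ∃ d, d = (2/5) - t := ⟨_, rfl⟩
  rw [← hbe] at hb
  rw [← hde] at hd
  rw [key b d hbe hde]
  positivity

end Pool.Agent.K1
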