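import Pool.Agent.K1.AbsB

/-!
# The polynomial lemma (order `k = 1`) for a list of conjugate pairs

`Wp L u = ∏ |u - L_a|²`, `dWp L` its derivative.
-/

set_option autoImplicit false

namespace Pool.Agent.K1

open Finset Set

/-- `|u - z|²` for real `u`. -/
def pq (z : ℂ) (u : ℝ) : ℝ := (u - z.re) ^ 2 + z.im ^ 2

/-- `∏ |u - L_a|²`. -/
def Wp {N : ℕ} (L : Fin N → ℂ) (u : ℝ) : ℝ := ∏ a, pq (L a) u

/-- The derivative of `Wp L`. -/
def dWp {N : ℕ} (L : Fin N → ℂ) (u : ℝ) : ℝ :=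
  ∑ a, 2 * (u - (L a).re) * ∏ b ∈ univ.erase a, pq (L b) u

variable {N : ℕ} {L : Fin N → ℂ}

theorem pq_nonneg (z : ℂ) (u : ℝ) : 0 ≤ pq z u := by unfold pq; positivity

theorem Wp_nonneg (L : Fin N → ℂ) (u : ℝ) : 0 ≤ Wp L u :=
  Finset.prod_nonneg (fun _ _ => pq_nonneg _ _)

theorem pq_add (z : ℂ) (x h : ℝ) : pq z (x + h) = pq z x + 2 * (x - z.re) * h + h ^ 2 := by
  unfold pq; ring

theorem hasDerivAt_pq (z : ℂ) (u : ℝ) : HasDerivAt (pq z) (2 * (u - z.re)) u := by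
  have h1 : HasDerivAt (fun u : ℝ => u - z.re) 1 u := (hasDerivAt_id u).sub_const _
  have h2 := h1.pow 2
  have h3 := h2.add_const (z.im ^ 2)
  have e : pq z = fun y => ((fun u : ℝ => u - z.re) ^ 2) y + z.im ^ 2 := by
    funext y; simp [pq]
  rw [e]
  refine h3.congr_deriv ?_
  norm_num

theorem hasDerivAt_Wp (L : Fin N → ℂ) (u : ℝ) : HasDerivAt (Wp L) (dWp L u) u := by
  have h := HasDerivAt.fun_finsetProd (u := (univ : Finset (Fin N)))
    (f := fun a => pq (L a)) (f' := fun a => 2 * (u - (L a).re)) (x := u)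
    (fun a _ => hasDerivAt_pq (L a) u)
  have e : Wp L = fun x => ∏ a, pq (L a) x := rfl
  rw [e]
  refine h.congr_deriv ?_
  unfold dWp
  apply Finset.sum_congr rfl
  intro a _
  rw [smul_eq_mul, mul_comm]

/-- Mean value inequality. -/
theorem Wp_sub_le {M : ℝ} (hM : ∀ u ∈ Icc (-1:ℝ) 1, |dWp L u| ≤ M) {x y : ℝ}
    (hx : x ∈ Icc (-1:ℝ) 1) (hy : y ∈ Icc (-1:ℝ) 1) : Wp L y ≤ Wp L x + M * |y - x| := by
  have h := (convex_Icc (-1:ℝ) 1).norm_image_sub_le_of_norm_hasDerivWithin_le (f := Wp L)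
    (f' := dWp L) (C := M) (fun u _ => (hasDerivAt_Wp L u).hasDerivWithinAt)
    (fun u hu => by rw [Real.norm_eq_abs]; exact hM u hu) hx hy
  rw [Real.norm_eq_abs, Real.norm_eq_abs] at h
  linarith [le_abs_self (Wp L y - Wp L x)]

theorem norm_sq_le (hL : ∀ a, ‖L a‖ ≤ 1) (a : Fin N) : (L a).re ^ 2 + (L a).im ^ 2 ≤ 1 := by
  have h := hL a
  have h2 : ‖L a‖ ^ 2 = (L a).re ^ 2 + (L a).im ^ 2 := by
    rw [← Complex.normSq_eq_norm_sq, Complex.normSq_apply]; ring
  rw [← h2]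
  exact pow_le_one₀ (norm_nonneg _) h

/-- `ω(1) ≤ ω'(1)/N`. -/
theorem Wp_one_le (hL : ∀ a, ‖L a‖ ≤ 1) : N * Wp L 1 ≤ dWp L 1 := by
  have h1 : ∀ a, pq (L a) 1 ≤ 2 * (1 - (L a).re) := by
    intro a
    have := norm_sq_le hL a
    unfold pq
    nlinarith
  calc (N : ℝ) * Wp L 1 = ∑ _a : Fin N, Wp L 1 := by
        rw [Finset.sum_const, Finset.card_univ, Fintype.card_fin, nsmul_eq_mul]
    _ ≤ dWp L 1 := by
        unfold dWp
        apply Finset.sum_le_sum
        intro a _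
        unfold Wp
        rw [← Finset.mul_prod_erase univ _ (mem_univ a)]
        exact mul_le_mul_of_nonneg_right (h1 a) (Finset.prod_nonneg (fun b _ => pq_nonneg _ _))

/-- The crude bound `ω(x) ≤ (1 - x + 1/N) M`. -/
theorem crude (hN : 1 ≤ N) (hL : ∀ a, ‖L a‖ ≤ 1) {M : ℝ}
    (hM : ∀ u ∈ Icc (-1:ℝ) 1, |dWp L u| ≤ M) {x : ℝ} (hx : x ∈ Icc (-1:ℝ) 1) :
    N * Wp L x ≤ (N * (1 - x) + 1) * M := by
  have h1 : Wp L x ≤ Wp L 1 + M * (1 - x) := by
    have := Wp_sub_le hM (x := 1) (y := x) ⟨by norm_num, by norm_num⟩ hx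
    rwa [abs_sub_comm, abs_of_nonneg (by linarith [hx.2])] at this
  have h2 := Wp_one_le hL
  have h3 : dWp L 1 ≤ M := (le_abs_self _).trans (hM 1 ⟨by norm_num, by norm_num⟩)
  have hN' : (1 : ℝ) ≤ N := by exact_mod_cast hN
  nlinarith

/-- The polynomial lemma, `ω'(x) ≤ 0`. -/
theorem poly_lemma (hN : 2 ≤ N) (hL : ∀ a, ‖L a‖ ≤ 1) {M : ℝ}
    (hM : ∀ u ∈ Icc (-1:ℝ) 1, |dWp L u| ≤ M) {t : ℝ} (ht0 : 0 < t) (ht : t ≤ 2 / 5)
    (hd : dWp L (1 - t) ≤ 0) :
    2 * (1 + 3 * t) * Wp L (1 - t) ≤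
      3 * t * (1 + t) * (M - dWp L (1 - t)) + (1 + 3 * t) * (M + dWp L (1 - t)) := by
  have hx : (1 - t) ∈ Icc (-1:ℝ) 1 := ⟨by linarith, by linarith⟩
  have hMx := hM _ hx
  have hMx1 : -M ≤ dWp L (1 - t) := (abs_le.1 hMx).1
  rcases (Wp_nonneg L (1 - t)).eq_or_lt with h0 | hpos
  · rw [← h0]
    have h1 : 0 ≤ M + dWp L (1 - t) := by linarith
    have h2 : 0 ≤ M - dWp L (1 - t) := by linarith [abs_nonneg (dWp L (1 - t))]
    have : 0 ≤ 3 * t * (1 + t) * (M - dWp L (1 - t)) := by positivity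
    have : 0 ≤ (1 + 3 * t) * (M + dWp L (1 - t)) := by positivity
    linarith
  set x := 1 - t with hxdef
  obtain ⟨W, hW⟩ : ∃ W, W = Wp L x := ⟨_, rfl⟩
  rw [← hW] at hpos ⊢
  have hpa : ∀ a, 0 < pq (L a) x := by
    intro a
    rcases (pq_nonneg (L a) x).eq_or_lt with h | h
    · exfalso
      have : Wp L x = 0 := Finset.prod_eq_zero (mem_univ a) h.symm
      rw [hW, this] at hpos
      exact lt_irrefl _ hpos
    · exact h
  set lam : Fin N → ℝ := fun a => -t * (2 * (x - (L a).re)) / pq (L a) x with hlam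
  set g : Fin N → ℝ := fun a => t ^ 2 / pq (L a) x with hg
  obtain ⟨D, hD⟩ : ∃ D, D = dWp L x := ⟨_, rfl⟩
  rw [← hD] at hd hMx1 ⊢
  -- erased products
  have her : ∀ (u : ℝ) a, pq (L a) u * ∏ b ∈ univ.erase a, pq (L b) u = Wp L u := by
    intro u a
    exact Finset.mul_prod_erase univ (fun b => pq (L b) u) (mem_univ a)
  have hsumlam : ∑ a, lam a = -t * D / W := by
    rw [hD]
    unfold dWp
    rw [eq_div_iff hpos.ne', Finset.sum_mul, Finset.mul_sum]
    apply Finset.sum_congr rfl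
    intro a _
    have h1 := her x a
    rw [← hW] at h1
    have h2 := (hpa a).ne'
    simp only [hlam]
    rw [← h1]
    field_simp
  have f1 : ∀ a, t + (1 - t) * lam a ≤ (2 - t) * g a := by
    intro a
    have h1 := norm_sq_le hL a
    have h2 := hpa a
    simp only [hlam, hg]
    have h3 : (2 - t) * (t ^ 2 / pq (L a) x) - (t + (1 - t) * (-t * (2 * (x - (L a).re)) / pq (L a) x))
        = t * ((2 - t) * t + 2 * (1 - t) * (x - (L a).re) - pq (L a) x) / pq (L a) x := by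
      field_simp
      ring
    have h4 : 0 ≤ (2 - t) * t + 2 * (1 - t) * (x - (L a).re) - pq (L a) x := by
      unfold pq
      rw [hxdef]
      nlinarith
    have h5 : 0 ≤ t * ((2 - t) * t + 2 * (1 - t) * (x - (L a).re) - pq (L a) x) / pq (L a) x := by
      positivity
    linarith
  have f2 : ∀ a, lam a ^ 2 ≤ 4 * g a := by
    intro a
    have h2 := hpa a
    simp only [hlam, hg]
    rw [div_pow, ← mul_div_assoc, div_le_div_iff₀ (by positivity) h2]
    have h3 : (x - (L a).re) ^ 2 ≤ pq (L a) x := by unfold pq; nlinarith [sq_nonneg (L a).im]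
    have h4 : 0 ≤ 4 * t ^ 2 * pq (L a) x * (pq (L a) x - (x - (L a).re) ^ 2) := by
      have : 0 ≤ pq (L a) x - (x - (L a).re) ^ 2 := by linarith
      positivity
    nlinarith
  have hshift : ∀ (ν : ℝ) a, pq (L a) (x - ν * t) = pq (L a) x * (1 + ν * lam a + ν ^ 2 * g a) := by
    intro ν a
    have h2 := (hpa a).ne'
    have h1 := pq_add (L a) x (-(ν * t))
    have e : x - ν * t = x + -(ν * t) := by ring
    rw [e, h1]
    simp only [hlam, hg]
    field_simp
  have hone : ∀ a, pq (L a) 1 = pq (L a) x * (1 - lam a + g a) := by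
    intro a
    have := hshift (-1) a
    have e : x - -1 * t = 1 := by rw [hxdef]; ring
    rw [e] at this
    rw [this]; ring
  have hR : Wp L 1 = W * ∏ a, (1 - lam a + g a) := by
    rw [hW]
    unfold Wp
    rw [← Finset.prod_mul_distrib]
    exact Finset.prod_congr rfl (fun a _ => hone a)
  have hcard : 2 ≤ Fintype.card (Fin N) := by rw [Fintype.card_fin]; exact hN
  have hMpos : dWp L 1 ≤ M := (le_abs_self _).trans (hM 1 ⟨by norm_num, by norm_num⟩)
  have hS : ∑ a, (2 * g a - lam a) * ∏ b ∈ univ.erase a, (1 - lam b + g b) ≤ t * M / W := by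
    rw [le_div_iff₀ hpos]
    refine le_trans (le_of_eq ?_) (mul_le_mul_of_nonneg_left hMpos ht0.le)
    unfold dWp
    rw [Finset.sum_mul, Finset.mul_sum]
    apply Finset.sum_congr rfl
    intro a _
    have h1 := her x a
    rw [← hW] at h1
    have h2 := (hpa a).ne'
    have h3 : ∏ b ∈ univ.erase a, pq (L b) 1 =
        (∏ b ∈ univ.erase a, pq (L b) x) * ∏ b ∈ univ.erase a, (1 - lam b + g b) := by
      rw [← Finset.prod_mul_distrib]
      exact Finset.prod_congr rfl (fun b _ => hone b)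
    rw [h3, ← h1]
    have h4 : (2 * g a - lam a) * pq (L a) x = t * (2 * (1 - (L a).re)) := by
      simp only [hlam, hg]
      rw [hxdef] at h2 ⊢
      field_simp
      ring
    calc (2 * g a - lam a) * (∏ b ∈ univ.erase a, (1 - lam b + g b)) *
          (pq (L a) x * ∏ b ∈ univ.erase a, pq (L b) x)
        = ((2 * g a - lam a) * pq (L a) x) * ((∏ b ∈ univ.erase a, pq (L b) x) *
          ∏ b ∈ univ.erase a, (1 - lam b + g b)) := by ring
      _ = _ := by rw [h4]; ring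
  have h1 : 1 ≤ ∏ a, (1 - lam a + g a) + t * M / W := by
    have h2 := Wp_sub_le hM (x := 1) (y := x) ⟨by norm_num, by norm_num⟩ hx
    have h3 : |x - 1| = t := by
      rw [hxdef, show (1 - t - 1 : ℝ) = -t by ring, abs_neg, abs_of_pos ht0]
    rw [h3, hR, ← hW] at h2
    have h4 : 1 = W / W := (div_self hpos.ne').symm
    have h5 : (∏ a, (1 - lam a + g a)) + t * M / W = (W * ∏ a, (1 - lam a + g a) + M * t) / W := by
      field_simp
    rw [h5, le_div_iff₀ hpos]
    linarith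
  have hc : ∀ ν : ℝ, 0 < ν → (1 + ν) * t ≤ 2 →
      ∏ a, (1 + ν * lam a + ν ^ 2 * g a) ≤ 1 + ν * (t * M / W) := by
    intro ν hν hνt
    have hy : x - ν * t ∈ Icc (-1:ℝ) 1 := by
      constructor
      · rw [hxdef]; linarith
      · have : 0 ≤ ν * t := by positivity
        linarith [hx.2]
    have h2 := Wp_sub_le hM hx hy
    have h3 : |x - ν * t - x| = ν * t := by
      rw [show (x - ν * t - x : ℝ) = -(ν * t) by ring, abs_neg, abs_of_pos (by positivity)]
    have h4 : Wp L (x - ν * t) = W * ∏ a, (1 + ν * lam a + ν ^ 2 * g a) := by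
      rw [hW]
      unfold Wp
      rw [← Finset.prod_mul_distrib]
      exact Finset.prod_congr rfl (fun a _ => hshift ν a)
    rw [h3, h4, ← hW] at h2
    have h5 : 1 + ν * (t * M / W) = (W + M * (ν * t)) / W := by field_simp
    rw [h5, le_div_iff₀ hpos]
    linarith
  have hE0 : 0 ≤ -t * D / W := by
    apply div_nonneg _ hpos.le
    nlinarith
  have hEw : -t * D / W ≤ t * M / W := by
    apply div_le_div_of_nonneg_right _ hpos.le
    nlinarith
  have hfin := abs_main hcard ht0 ht f1 f2 hsumlam hE0 hEw hS h1 hc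
  have h6 : (2 * t * (1 + 3 * t)) * W ≤ (1 + 6 * t + 3 * t ^ 2) * (t * M) -
      (1 - 3 * t ^ 2) * (-t * D) := by
    have h7 := mul_le_mul_of_nonneg_right hfin hpos.le
    have e1 : (2 * t * (1 + 3 * t) + (1 - 3 * t ^ 2) * (-t * D / W)) * W =
        2 * t * (1 + 3 * t) * W + (1 - 3 * t ^ 2) * (-t * D) := by field_simp
    have e2 : (1 + 6 * t + 3 * t ^ 2) * (t * M / W) * W = (1 + 6 * t + 3 * t ^ 2) * (t * M) := by
      field_simp
    rw [e1, e2] at h7
    linarith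
  have h8 : t * (2 * (1 + 3 * t) * W) ≤
      t * (3 * t * (1 + t) * (M - D) + (1 + 3 * t) * (M + D)) := by nlinarith
  exact le_of_mul_le_mul_left h8 ht0

end Pool.Agent.K1
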